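import Mathlib

namespace Loewner
open Real MeasureTheory intervalIntegral

noncomputable section

/-- zonal profile -/
def q0 (z : ℝ) : ℝ := 255*z^1 + (-1545)*z^3 + 4396*z^5 + (-13086)*z^7 + 28578*z^9 + (-29822)*z^11 + 11190*z^13
/-- profile of the third harmonic -/
def q1 (z : ℝ) : ℝ := (-218)*z^0 + 3514*z^2 + (-17846)*z^4 + 39595*z^6 + (-40077)*z^8 + 15155*z^10
/-- profile of the sixth harmonic -/
def q2 (z : ℝ) : ℝ := (-782)*z^1 + 7244*z^3 + (-22273)*z^5 + 19378*z^7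

theorem int_even (c0 c1 c2 c3 c4 c5 c6 c7 : ℝ) :
    (∫ t in (-π)..π, (c0 + c1 * sin t ^ 2 + c2 * sin t ^ 4 + c3 * sin t ^ 6 + c4 * sin t ^ 8
      + c5 * sin t ^ 10 + c6 * sin t ^ 12 + c7 * sin t ^ 14)) =
    2 * π * (c0 + c1 * (1 / 2) + c2 * (3 / 8) + c3 * (5 / 16) + c4 * (35 / 128)
      + c5 * (63 / 256) + c6 * (231 / 1024) + c7 * (429 / 2048)) := by
  have h2 : (∫ t in (-π)..π, sin t ^ 2) = 2 * π * (1 / 2) := by
    rw [show (2 : ℕ) = 0 + 2 from rfl, integral_sin_pow]; simp; ring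
  have h4 : (∫ t in (-π)..π, sin t ^ 4) = 2 * π * (3 / 8) := by
    rw [show (4 : ℕ) = 2 + 2 from rfl, integral_sin_pow, h2]; simp; ring
  have h6 : (∫ t in (-π)..π, sin t ^ 6) = 2 * π * (5 / 16) := by
    rw [show (6 : ℕ) = 4 + 2 from rfl, integral_sin_pow, h4]; simp; ring
  have h8 : (∫ t in (-π)..π, sin t ^ 8) = 2 * π * (35 / 128) := by
    rw [show (8 : ℕ) = 6 + 2 from rfl, integral_sin_pow, h6]; simp; ring
  have h10 : (∫ t in (-π)..π, sin t ^ 10) = 2 * π * (63 / 256) := by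
    rw [show (10 : ℕ) = 8 + 2 from rfl, integral_sin_pow, h8]; simp; ring
  have h12 : (∫ t in (-π)..π, sin t ^ 12) = 2 * π * (231 / 1024) := by
    rw [show (12 : ℕ) = 10 + 2 from rfl, integral_sin_pow, h10]; simp; ring
  have h14 : (∫ t in (-π)..π, sin t ^ 14) = 2 * π * (429 / 2048) := by
    rw [show (14 : ℕ) = 12 + 2 from rfl, integral_sin_pow, h12]; simp; ring
  have ii : ∀ f : ℝ → ℝ, Continuous f → IntervalIntegrable f volume (-π) π :=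
    fun f hf => hf.intervalIntegrable _ _
  rw [integral_add (ii _ (by fun_prop)) (ii _ (by fun_prop)),
    integral_add (ii _ (by fun_prop)) (ii _ (by fun_prop)),
    integral_add (ii _ (by fun_prop)) (ii _ (by fun_prop)),
    integral_add (ii _ (by fun_prop)) (ii _ (by fun_prop)),
    integral_add (ii _ (by fun_prop)) (ii _ (by fun_prop)),
    integral_add (ii _ (by fun_prop)) (ii _ (by fun_prop)),
    integral_add (ii _ (by fun_prop)) (ii _ (by fun_prop))]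
  simp only [intervalIntegral.integral_const_mul, intervalIntegral.integral_const, h2, h4, h6, h8, h10, h12, h14]
  simp only [smul_eq_mul]
  ring

theorem int_odd (f : ℝ → ℝ) (hf : Continuous f) : (∫ t in (-π)..π, f (sin t) * cos t) = 0 := by
  have := intervalIntegral.integral_comp_mul_deriv (a := -π) (b := π) (f := sin) (f' := cos) (g := f)
    (fun x _ => hasDerivAt_sin x) (by fun_prop) hf
  simpa using this

def B1 (z s : ℝ) : ℝ := (327/4) + (-1757/8)*s^2 + (26769/64)*s^4 + (-118785/256)*s^6 + (280539/1024)*s^8 + (-136395/2048)*s^10 + (-327/4)*z^2 + (5271/8)*z^2*s^2 + (-133845/64)*z^2*s^4 + (831495/256)*z^2*s^6 + (-2524851/1024)*z^2*s^8 + (1500345/2048)*z^2*s^10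

theorem intB1 (z s : ℝ) : (∫ t in (-π)..π, q1 (s*sin t) * (3*z^2*sin t^2 - (1 - sin t^2)) * (1 - sin t^2)) = 2 * π * B1 z s := by
  have h := int_even (218) ((-436) + (-3514)*s^2 + (-654)*z^2) (218 + 7028*s^2 + 17846*s^4 + 654*z^2 + 10542*z^2*s^2) ((-3514)*s^2 + (-35692)*s^4 + (-39595)*s^6 + (-10542)*z^2*s^2 + (-53538)*z^2*s^4) (17846*s^4 + 79190*s^6 + 40077*s^8 + 53538*z^2*s^4 + 118785*z^2*s^6) ((-39595)*s^6 + (-80154)*s^8 + (-15155)*s^10 + (-118785)*z^2*s^6 + (-120231)*z^2*s^8) (40077*s^8 + 30310*s^10 + 120231*z^2*s^8 + 45465*z^2*s^10) ((-15155)*s^10 + (-45465)*z^2*s^10)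
  have e : ∀ t : ℝ, q1 (s*sin t) * (3*z^2*sin t^2 - (1 - sin t^2)) * (1 - sin t^2) = _ := fun t => by
    have : q1 (s*sin t) * (3*z^2*sin t^2 - (1 - sin t^2)) * (1 - sin t^2) = (218) + ((-436) + (-3514)*s^2 + (-654)*z^2) * sin t ^ 2 + (218 + 7028*s^2 + 17846*s^4 + 654*z^2 + 10542*z^2*s^2) * sin t ^ 4 + ((-3514)*s^2 + (-35692)*s^4 + (-39595)*s^6 + (-10542)*z^2*s^2 + (-53538)*z^2*s^4) * sin t ^ 6 + (17846*s^4 + 79190*s^6 + 40077*s^8 + 53538*z^2*s^4 + 118785*z^2*s^6) * sin t ^ 8 + ((-39595)*s^6 + (-80154)*s^8 + (-15155)*s^10 + (-118785)*z^2*s^6 + (-120231)*z^2*s^8) * sin t ^ 10 + (40077*s^8 + 30310*s^10 + 120231*z^2*s^8 + 45465*z^2*s^10) * sin t ^ 12 + ((-15155)*s^10 + (-45465)*z^2*s^10) * sin t ^ 14 := by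
      unfold q1; ring
    exact this
  simp_rw [e]
  rw [h]; unfold B1; ring

def B2 (z s : ℝ) : ℝ := (5865/32)*z*s + (-16299/32)*z*s^3 + (334095/512)*z*s^5 + (-145335/512)*z*s^7 + (-5865/16)*z^3*s + (27165/16)*z^3*s^3 + (-779555/256)*z^3*s^5 + (436005/256)*z^3*s^7 + (5865/32)*z^5*s + (-38031/32)*z^5*s^3 + (1403199/512)*z^5*s^5 + (-959211/512)*z^5*s^7

theorem intB2 (z s : ℝ) : (∫ t in (-π)..π, q2 (-(s*sin t)) * (6*z^5*sin t^5 - 20*z^3*sin t^3*(1 - sin t^2) + 6*z*sin t*(1 - sin t^2)^2) * (1 - sin t^2)) = 2 * π * B2 z s := by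
  have h := int_even (0) (4692*z*s) ((-14076)*z*s + (-43464)*z*s^3 + (-15640)*z^3*s) (14076*z*s + 130392*z*s^3 + 133638*z*s^5 + 31280*z^3*s + 144880*z^3*s^3 + 4692*z^5*s) ((-4692)*z*s + (-130392)*z*s^3 + (-400914)*z*s^5 + (-116268)*z*s^7 + (-15640)*z^3*s + (-289760)*z^3*s^3 + (-445460)*z^3*s^5 + (-4692)*z^5*s + (-43464)*z^5*s^3) (43464*z*s^3 + 400914*z*s^5 + 348804*z*s^7 + 144880*z^3*s^3 + 890920*z^3*s^5 + 387560*z^3*s^7 + 43464*z^5*s^3 + 133638*z^5*s^5) ((-133638)*z*s^5 + (-348804)*z*s^7 + (-445460)*z^3*s^5 + (-775120)*z^3*s^7 + (-133638)*z^5*s^5 + (-116268)*z^5*s^7) (116268*z*s^7 + 387560*z^3*s^7 + 116268*z^5*s^7)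
  have e : ∀ t : ℝ, q2 (-(s*sin t)) * (6*z^5*sin t^5 - 20*z^3*sin t^3*(1 - sin t^2) + 6*z*sin t*(1 - sin t^2)^2) * (1 - sin t^2) = _ := fun t => by
    have : q2 (-(s*sin t)) * (6*z^5*sin t^5 - 20*z^3*sin t^3*(1 - sin t^2) + 6*z*sin t*(1 - sin t^2)^2) * (1 - sin t^2) = (0) + (4692*z*s) * sin t ^ 2 + ((-14076)*z*s + (-43464)*z*s^3 + (-15640)*z^3*s) * sin t ^ 4 + (14076*z*s + 130392*z*s^3 + 133638*z*s^5 + 31280*z^3*s + 144880*z^3*s^3 + 4692*z^5*s) * sin t ^ 6 + ((-4692)*z*s + (-130392)*z*s^3 + (-400914)*z*s^5 + (-116268)*z*s^7 + (-15640)*z^3*s + (-289760)*z^3*s^3 + (-445460)*z^3*s^5 + (-4692)*z^5*s + (-43464)*z^5*s^3) * sin t ^ 8 + (43464*z*s^3 + 400914*z*s^5 + 348804*z*s^7 + 144880*z^3*s^3 + 890920*z^3*s^5 + 387560*z^3*s^7 + 43464*z^5*s^3 + 133638*z^5*s^5) * sin t ^ 10 + ((-133638)*z*s^5 + (-348804)*z*s^7 + (-445460)*z^3*s^5 + (-775120)*z^3*s^7 + (-133638)*z^5*s^5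 + (-116268)*z^5*s^7) * sin t ^ 12 + (116268*z*s^7 + 387560*z^3*s^7 + 116268*z^5*s^7) * sin t ^ 14 := by
      unfold q2; ring
    exact this
  simp_rw [e]
  rw [h]; unfold B2; ring

def G0 (z s : ℝ) : ℝ := (255/2)*s + (-4635/8)*s^3 + (5495/4)*s^5 + (-229005/64)*s^7 + (900207/128)*s^9 + (-3444441/512)*s^11 + (2400255/1024)*s^13

theorem intG0 (z s : ℝ) : (∫ t in (-π)..π, -(q0 (-(s*sin t)) * sin t)) = 2 * π * G0 z s := by
  have h := int_even (0) (255*s) ((-1545)*s^3) (4396*s^5) ((-13086)*s^7) (28578*s^9) ((-29822)*s^11) (11190*s^13)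
  have e : ∀ t : ℝ, -(q0 (-(s*sin t)) * sin t) = _ := fun t => by
    have : -(q0 (-(s*sin t)) * sin t) = (0) + (255*s) * sin t ^ 2 + ((-1545)*s^3) * sin t ^ 4 + (4396*s^5) * sin t ^ 6 + ((-13086)*s^7) * sin t ^ 8 + (28578*s^9) * sin t ^ 10 + ((-29822)*s^11) * sin t ^ 12 + (11190*s^13) * sin t ^ 14 := by
      unfold q0; ring
    exact this
  simp_rw [e]
  rw [h]; unfold G0; ring

def G1 (z s : ℝ) : ℝ := (-327/4)*z + (5271/8)*z*s^2 + (-133845/64)*z*s^4 + (831495/256)*z*s^6 + (-2524851/1024)*z*s^8 + (1500345/2048)*z*s^10 + (327/4)*z^3 + (-8785/8)*z^3*s^2 + (312305/64)*z^3*s^4 + (-2494485/256)*z^3*s^6 + (9257787/1024)*z^3*s^8 + (-6501495/2048)*z^3*s^10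

theorem intG1 (z s : ℝ) : (∫ t in (-π)..π, -(q1 (s*sin t) * (z^3*sin t^3 - 3*z*sin t*(1 - sin t^2)) * sin t)) = 2 * π * G1 z s := by
  have h := int_even (0) ((-654)*z) (654*z + 10542*z*s^2 + 218*z^3) ((-10542)*z*s^2 + (-53538)*z*s^4 + (-3514)*z^3*s^2) (53538*z*s^4 + 118785*z*s^6 + 17846*z^3*s^4) ((-118785)*z*s^6 + (-120231)*z*s^8 + (-39595)*z^3*s^6) (120231*z*s^8 + 45465*z*s^10 + 40077*z^3*s^8) ((-45465)*z*s^10 + (-15155)*z^3*s^10)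
  have e : ∀ t : ℝ, -(q1 (s*sin t) * (z^3*sin t^3 - 3*z*sin t*(1 - sin t^2)) * sin t) = _ := fun t => by
    have : -(q1 (s*sin t) * (z^3*sin t^3 - 3*z*sin t*(1 - sin t^2)) * sin t) = (0) + ((-654)*z) * sin t ^ 2 + (654*z + 10542*z*s^2 + 218*z^3) * sin t ^ 4 + ((-10542)*z*s^2 + (-53538)*z*s^4 + (-3514)*z^3*s^2) * sin t ^ 6 + (53538*z*s^4 + 118785*z*s^6 + 17846*z^3*s^4) * sin t ^ 8 + ((-118785)*z*s^6 + (-120231)*z*s^8 + (-39595)*z^3*s^6) * sin t ^ 10 + (120231*z*s^8 + 45465*z*s^10 + 40077*z^3*s^8) * sin t ^ 12 + ((-45465)*z*s^10 + (-15155)*z^3*s^10) * sin t ^ 14 := by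
      unfold q1; ring
    exact this
  simp_rw [e]
  rw [h]; unfold G1; ring

def G2 (z s : ℝ) : ℝ := (1955/64)*s + (-5433/64)*s^3 + (111365/1024)*s^5 + (-48445/1024)*s^7 + (-17595/64)*z^2*s + (81495/64)*z^2*s^3 + (-2338665/1024)*z^2*s^5 + (1308015/1024)*z^2*s^7 + (29325/64)*z^4*s + (-190155/64)*z^4*s^3 + (7015995/1024)*z^4*s^5 + (-4796055/1024)*z^4*s^7 + (-13685/64)*z^6*s + (114093/64)*z^6*s^3 + (-5145063/1024)*z^6*s^5 + (4156581/1024)*z^6*s^7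

theorem intG2 (z s : ℝ) : (∫ t in (-π)..π, -(q2 (-(s*sin t)) * (z^6*sin t^6 - 15*z^4*sin t^4*(1 - sin t^2) + 15*z^2*sin t^2*(1 - sin t^2)^2 - (1 - sin t^2)^3) * sin t)) = 2 * π * G2 z s := by
  have h := int_even (0) (782*s) ((-2346)*s + (-7244)*s^3 + (-11730)*z^2*s) (2346*s + 21732*s^3 + 22273*s^5 + 23460*z^2*s + 108660*z^2*s^3 + 11730*z^4*s) ((-782)*s + (-21732)*s^3 + (-66819)*s^5 + (-19378)*s^7 + (-11730)*z^2*s + (-217320)*z^2*s^3 + (-334095)*z^2*s^5 + (-11730)*z^4*s + (-108660)*z^4*s^3 + (-782)*z^6*s) (7244*s^3 + 66819*s^5 + 58134*s^7 + 108660*z^2*s^3 + 668190*z^2*s^5 + 290670*z^2*s^7 + 108660*z^4*s^3 + 334095*z^4*s^5 + 7244*z^6*s^3) ((-22273)*s^5 + (-58134)*s^7 + (-334095)*z^2*s^5 + (-581340)*z^2*s^7 + (-334095)*z^4*s^5 + (-290670)*z^4*s^7 + (-22273)*z^6*s^5) (19378*s^7 + 290670*z^2*s^7 + 290670*z^4*s^7 + 19378*z^6*s^7)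
  have e : ∀ t : ℝ, -(q2 (-(s*sin t)) * (z^6*sin t^6 - 15*z^4*sin t^4*(1 - sin t^2) + 15*z^2*sin t^2*(1 - sin t^2)^2 - (1 - sin t^2)^3) * sin t) = _ := fun t => by
    have : -(q2 (-(s*sin t)) * (z^6*sin t^6 - 15*z^4*sin t^4*(1 - sin t^2) + 15*z^2*sin t^2*(1 - sin t^2)^2 - (1 - sin t^2)^3) * sin t) = (0) + (782*s) * sin t ^ 2 + ((-2346)*s + (-7244)*s^3 + (-11730)*z^2*s) * sin t ^ 4 + (2346*s + 21732*s^3 + 22273*s^5 + 23460*z^2*s + 108660*z^2*s^3 + 11730*z^4*s) * sin t ^ 6 + ((-782)*s + (-21732)*s^3 + (-66819)*s^5 + (-19378)*s^7 + (-11730)*z^2*s + (-217320)*z^2*s^3 + (-334095)*z^2*s^5 + (-11730)*z^4*s + (-108660)*z^4*s^3 + (-782)*z^6*s) * sin t ^ 8 + (7244*s^3 + 66819*s^5 + 58134*s^7 + 108660*z^2*s^3 + 668190*z^2*s^5 + 290670*z^2*s^7 + 108660*z^4*s^3 + 334095*z^4*s^5 + 7244*z^6*s^3) * sin t ^ 10 + ((-22273)*s^5 + (-58134)*s^7 + (-334095)*z^2*s^5 + (-581340)*z^2*s^7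 + (-334095)*z^4*s^5 + (-290670)*z^4*s^7 + (-22273)*z^6*s^5) * sin t ^ 12 + (19378*s^7 + 290670*z^2*s^7 + 290670*z^4*s^7 + 19378*z^6*s^7) * sin t ^ 14 := by
      unfold q2; ring
    exact this
  simp_rw [e]
  rw [h]; unfold G2; ring


end
end Loewner
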