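import Pool.Agent.Helper98.Loew.Circ1

namespace Loewner
open Real MeasureTheory intervalIntegral

noncomputable section

/-- binary form controlling the derivative along the symmetry meridians -/
def GF (z s : ℝ) : ℝ := (221/1024)*s^12 + (1515/2048)*z*s^11 + (10945/1024)*z^2*s^10 + (-15645/512)*z^3*s^9 + (-73557/512)*z^4*s^8 + (77089/256)*z^5*s^7 + (87277/128)*z^6*s^6 + (-133065/128)*z^7*s^5 + (-52547/64)*z^8*s^4 + (20505/16)*z^9*s^3 + (1485/8)*z^10*s^2 + (-521)*z^11*s + (255/2)*z^12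
/-- binary form controlling the azimuthal derivative -/
def KF (z s : ℝ) : ℝ := (48643/2048)*s^10 + (2727/32)*z*s^9 + (79613/512)*z^2*s^8 + (132179/256)*z^3*s^7 + (103601/256)*z^4*s^6 + (-28639/32)*z^5*s^5 + (96973/128)*z^6*s^4 + (77467/32)*z^7*s^3 + (4369/16)*z^8*s^2 + 521*z^10

theorem GF_pos (z s : ℝ) (h : z ^ 2 + s ^ 2 = 1) : 1 / 10 ≤ GF z s := by
  have e : GF z s - 1 / 10 * (z ^ 2 + s ^ 2) ^ 6 = (637/5)*((-435/40768)*s^6 + (-905/3136)*z*s^5 + (7235/20384)*z^2*s^4 + (13085/5824)*z^3*s^3 + (-57975/40768)*z^4*s^2 + (-2605/1274)*z^5*s + 1*z^6)^2 + (1499623/101920)*((-107605/5998492)*s^6 + (1004705/5998492)*z*s^5 + (1336045/2999246)*z^2*s^4 + (-7270655/5998492)*z^3*s^3 + (-6483205/5998492)*z^4*s^2 + 1*z^5*s)^2 + (113066354929/6142455808)*((2497515701/113066354929)*s^6 + (9725804739/113066354929)*z*s^5 + (-55392381002/113066354929)*z^2*s^4 + (-5217145063/10278759539)*z^3*s^3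 + 1*z^4*s^2)^2 + (12268302134287/657840610496)*((213764799163/49073208537148)*s^6 + (-9531161834087/49073208537148)*z*s^5 + (-7271668090409/98146417074296)*z^2*s^4 + 1*z^3*s^3)^2 + (3385895632185222175/552760620962435072)*((-245822103218401002/3385895632185222175)*s^6 + (22113365563270798/3385895632185222175)*z*s^5 + 1*z^2*s^4)^2 + (2516312650587668483287/3467157127357667507200)*((76213548432602191053/10065250602350673933148)*s^6 + 1*z*s^5)^2 + (11320326867649467390687837/206136332336141802150871040)*(1*s^6)^2 := by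
    unfold GF; ring
  have p : 0 ≤ GF z s - 1 / 10 * (z ^ 2 + s ^ 2) ^ 6 := by rw [e]; positivity
  rw [h] at p; linarith

theorem KF_pos (z s : ℝ) (h : z ^ 2 + s ^ 2 = 1) : 0 < KF z s := by
  have e : KF z s - 1 / 50 * (z ^ 2 + s ^ 2) ^ 5 = (26049/50)*((15925/416784)*s^5 + (62975/277856)*z*s^4 + (-9475/43872)*z^2*s^3 + (-204025/138928)*z^3*s^2 + 1*z^5)^2 + (36063/20)*((2435/288504)*s^5 + (-9085/32056)*z*s^4 + (-86675/144252)*z^2*s^3 + (105835/144252)*z^3*s^2 + 1*z^4*s)^2 + (476097309625027/801625674240)*((-64163270817965/476097309625027)*s^5 + (-29641651624665/952194619250054)*z*s^4 + (1079472058385885/952194619250054)*z^2*s^3 + 1*z^3*s^2)^2 + (252723295794701892853/3656427337920207360)*((98710083564943933300/252723295794701892853)*s^5 + (349829274114857719530/252723295794701892853)*z*s^4 + 1*z^2*s^3)^2 + (1670126979201345726349151/323485818617218422851840)*((824834628380995465631995/1670126979201345726349151)*s^5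 + 1*z*s^4)^2 + (21515926919259562768066487701/85510501335108901189076531200)*(1*s^5)^2 := by
    unfold KF; ring
  have p : 0 ≤ KF z s - 1 / 50 * (z ^ 2 + s ^ 2) ^ 5 := by rw [e]; positivity
  rw [h] at p; linarith

theorem B_add (z s : ℝ) (h : z ^ 2 + s ^ 2 = 1) : B1 z s + 2 * B2 z s = s ^ 2 * KF z s := by
  have e : B1 z s + 2 * B2 z s = (327/4)*(z^2+s^2)^6 + (-1757/8)*s^2*(z^2+s^2)^5 + (26769/64)*s^4*(z^2+s^2)^4 + (-118785/256)*s^6*(z^2+s^2)^3 + (280539/1024)*s^8*(z^2+s^2)^2 + (-136395/2048)*s^10*(z^2+s^2)^1 + (5865/16)*z*s*(z^2+s^2)^5 + (-16299/16)*z*s^3*(z^2+s^2)^4 + (334095/256)*z*s^5*(z^2+s^2)^3 + (-145335/256)*z*s^7*(z^2+s^2)^2 + (-327/4)*z^2*(z^2+s^2)^5 + (5271/8)*z^2*s^2*(z^2+s^2)^4 + (-133845/64)*z^2*s^4*(z^2+s^2)^3 + (831495/256)*z^2*s^6*(z^2+s^2)^2 + (-2524851/1024)*z^2*s^8*(z^2+s^2)^1 + (1500345/2048)*z^2*s^10 + (-5865/8)*z^3*s*(z^2+s^2)^4 + (27165/8)*z^3*s^3*(z^2+s^2)^3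 + (-779555/128)*z^3*s^5*(z^2+s^2)^2 + (436005/128)*z^3*s^7*(z^2+s^2)^1 + (5865/16)*z^5*s*(z^2+s^2)^3 + (-38031/16)*z^5*s^3*(z^2+s^2)^2 + (1403199/256)*z^5*s^5*(z^2+s^2)^1 + (-959211/256)*z^5*s^7 := by
    rw [h]; unfold B1 B2; ring
  rw [e]; unfold KF; ring

theorem B_sub (z s : ℝ) (h : z ^ 2 + s ^ 2 = 1) : B1 z s - 2 * B2 z s = s ^ 2 * KF (-z) s := by
  have e : B1 z s - 2 * B2 z s = (327/4)*(z^2+s^2)^6 + (-1757/8)*s^2*(z^2+s^2)^5 + (26769/64)*s^4*(z^2+s^2)^4 + (-118785/256)*s^6*(z^2+s^2)^3 + (280539/1024)*s^8*(z^2+s^2)^2 + (-136395/2048)*s^10*(z^2+s^2)^1 + (-5865/16)*z*s*(z^2+s^2)^5 + (16299/16)*z*s^3*(z^2+s^2)^4 + (-334095/256)*z*s^5*(z^2+s^2)^3 + (145335/256)*z*s^7*(z^2+s^2)^2 + (-327/4)*z^2*(z^2+s^2)^5 + (5271/8)*z^2*s^2*(z^2+s^2)^4 + (-133845/64)*z^2*s^4*(z^2+s^2)^3 + (831495/256)*z^2*s^6*(z^2+s^2)^2 + (-2524851/1024)*z^2*s^8*(z^2+s^2)^1 + (1500345/2048)*z^2*s^10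 + (5865/8)*z^3*s*(z^2+s^2)^4 + (-27165/8)*z^3*s^3*(z^2+s^2)^3 + (779555/128)*z^3*s^5*(z^2+s^2)^2 + (-436005/128)*z^3*s^7*(z^2+s^2)^1 + (-5865/16)*z^5*s*(z^2+s^2)^3 + (38031/16)*z^5*s^3*(z^2+s^2)^2 + (-1403199/256)*z^5*s^5*(z^2+s^2)^1 + (959211/256)*z^5*s^7 := by
    rw [h]; unfold B1 B2; ring
  rw [e]; unfold KF; ring

theorem G_add (z s : ℝ) (h : z ^ 2 + s ^ 2 = 1) : G0 z s + G1 z s + G2 z s = s * GF z s := by
  have e : G0 z s + G1 z s + G2 z s = (10115/64)*s*(z^2+s^2)^6 + (-42513/64)*s^3*(z^2+s^2)^5 + (1518085/1024)*s^5*(z^2+s^2)^4 + (-3712525/1024)*s^7*(z^2+s^2)^3 + (900207/128)*s^9*(z^2+s^2)^2 + (-3444441/512)*s^11*(z^2+s^2)^1 + (2400255/1024)*s^13 + (-327/4)*z*(z^2+s^2)^6 + (5271/8)*z*s^2*(z^2+s^2)^5 + (-133845/64)*z*s^4*(z^2+s^2)^4 + (831495/256)*z*s^6*(z^2+s^2)^3 + (-2524851/1024)*z*s^8*(z^2+s^2)^2 + (1500345/2048)*z*s^10*(z^2+s^2)^1 + (-17595/64)*z^2*s*(z^2+s^2)^5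 + (81495/64)*z^2*s^3*(z^2+s^2)^4 + (-2338665/1024)*z^2*s^5*(z^2+s^2)^3 + (1308015/1024)*z^2*s^7*(z^2+s^2)^2 + (327/4)*z^3*(z^2+s^2)^5 + (-8785/8)*z^3*s^2*(z^2+s^2)^4 + (312305/64)*z^3*s^4*(z^2+s^2)^3 + (-2494485/256)*z^3*s^6*(z^2+s^2)^2 + (9257787/1024)*z^3*s^8*(z^2+s^2)^1 + (-6501495/2048)*z^3*s^10 + (29325/64)*z^4*s*(z^2+s^2)^4 + (-190155/64)*z^4*s^3*(z^2+s^2)^3 + (7015995/1024)*z^4*s^5*(z^2+s^2)^2 + (-4796055/1024)*z^4*s^7*(z^2+s^2)^1 + (-13685/64)*z^6*s*(z^2+s^2)^3 + (114093/64)*z^6*s^3*(z^2+s^2)^2 + (-5145063/1024)*z^6*s^5*(z^2+s^2)^1 + (4156581/1024)*z^6*s^7 := by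
    rw [h]; unfold G0 G1 G2; ring
  rw [e]; unfold GF; ring

theorem G_sub (z s : ℝ) (h : z ^ 2 + s ^ 2 = 1) : G0 z s - G1 z s + G2 z s = s * GF (-z) s := by
  have e : G0 z s - G1 z s + G2 z s = (10115/64)*s*(z^2+s^2)^6 + (-42513/64)*s^3*(z^2+s^2)^5 + (1518085/1024)*s^5*(z^2+s^2)^4 + (-3712525/1024)*s^7*(z^2+s^2)^3 + (900207/128)*s^9*(z^2+s^2)^2 + (-3444441/512)*s^11*(z^2+s^2)^1 + (2400255/1024)*s^13 + (327/4)*z*(z^2+s^2)^6 + (-5271/8)*z*s^2*(z^2+s^2)^5 + (133845/64)*z*s^4*(z^2+s^2)^4 + (-831495/256)*z*s^6*(z^2+s^2)^3 + (2524851/1024)*z*s^8*(z^2+s^2)^2 + (-1500345/2048)*z*s^10*(z^2+s^2)^1 + (-17595/64)*z^2*s*(z^2+s^2)^5 + (81495/64)*z^2*s^3*(z^2+s^2)^4 + (-2338665/1024)*z^2*s^5*(z^2+s^2)^3 + (1308015/1024)*z^2*s^7*(z^2+s^2)^2 + (-327/4)*z^3*(z^2+s^2)^5 + (8785/8)*z^3*s^2*(z^2+s^2)^4 + (-312305/64)*z^3*s^4*(z^2+s^2)^3 + (2494485/256)*z^3*s^6*(z^2+s^2)^2 + (-9257787/1024)*z^3*s^8*(z^2+s^2)^1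 + (6501495/2048)*z^3*s^10 + (29325/64)*z^4*s*(z^2+s^2)^4 + (-190155/64)*z^4*s^3*(z^2+s^2)^3 + (7015995/1024)*z^4*s^5*(z^2+s^2)^2 + (-4796055/1024)*z^4*s^7*(z^2+s^2)^1 + (-13685/64)*z^6*s*(z^2+s^2)^3 + (114093/64)*z^6*s^3*(z^2+s^2)^2 + (-5145063/1024)*z^6*s^5*(z^2+s^2)^1 + (4156581/1024)*z^6*s^7 := by
    rw [h]; unfold G0 G1 G2; ring
  rw [e]; unfold GF; ring


/-- the odd polynomial -/
def wpol (x y z : ℝ) : ℝ := q0 z + q1 z * (x ^ 3 - 3 * x * y ^ 2)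
  + q2 z * (x ^ 6 - 15 * x ^ 4 * y ^ 2 + 15 * x ^ 2 * y ^ 4 - y ^ 6)

theorem q1_neg (z : ℝ) : q1 (-z) = q1 z := by unfold q1; ring
theorem q2_neg (z : ℝ) : q2 (-z) = -q2 z := by unfold q2; ring
theorem q0_neg (z : ℝ) : q0 (-z) = -q0 z := by unfold q0; ring
theorem wpol_neg (x y z : ℝ) : wpol (-x) (-y) (-z) = -wpol x y z := by
  unfold wpol; rw [q0_neg, q1_neg, q2_neg]; ring

theorem q0_cont : Continuous q0 := by unfold q0; fun_prop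
theorem q1_cont : Continuous q1 := by unfold q1; fun_prop
theorem q2_cont : Continuous q2 := by unfold q2; fun_prop

theorem wpol_circle (κ σ z s C S : ℝ) (h : C ^ 2 = 1 - S ^ 2) :
    wpol (-σ * C + z * κ * S) (κ * C + z * σ * S) (-s * S) =
      (q0 (-(s * S)) + (κ ^ 3 - 3 * κ * σ ^ 2) * (q1 (s * S) * (z^3*S^3 - 3*z*S*(1 - S^2)))
        + (κ ^ 6 - 15 * κ ^ 4 * σ ^ 2 + 15 * κ ^ 2 * σ ^ 4 - σ ^ 6) * (q2 (-(s * S)) *
          (z^6*S^6 - 15*z^4*S^4*(1 - S^2) + 15*z^2*S^2*(1 - S^2)^2 - (1 - S^2)^3)))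
      - ((3 * κ ^ 2 * σ - σ ^ 3) * (q1 (s * S) * (3*z^2*S^2 - (1 - S^2)))
        + (6 * κ ^ 5 * σ - 20 * κ ^ 3 * σ ^ 3 + 6 * κ * σ ^ 5) * (q2 (-(s * S)) *
          (6*z^5*S^5 - 20*z^3*S^3*(1 - S^2) + 6*z*S*(1 - S^2)^2))) * C := by
  have e1 : -s * S = -(s * S) := by ring
  unfold wpol
  rw [e1, q1_neg]
  have h3 : (-σ * C + z * κ * S) ^ 3 - 3 * (-σ * C + z * κ * S) * (κ * C + z * σ * S) ^ 2 =
      (κ ^ 3 - 3 * κ * σ ^ 2) * (z^3*S^3 - 3*z*S*C^2)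
      - (3 * κ ^ 2 * σ - σ ^ 3) * (3*z^2*S^2 - C^2) * C := by ring
  have h6 : (-σ * C + z * κ * S) ^ 6 - 15 * (-σ * C + z * κ * S) ^ 4 * (κ * C + z * σ * S) ^ 2
      + 15 * (-σ * C + z * κ * S) ^ 2 * (κ * C + z * σ * S) ^ 4 - (κ * C + z * σ * S) ^ 6 =
      (κ ^ 6 - 15 * κ ^ 4 * σ ^ 2 + 15 * κ ^ 2 * σ ^ 4 - σ ^ 6) *
        (z^6*S^6 - 15*z^4*S^4*C^2 + 15*z^2*S^2*(C^2)^2 - (C^2)^3)
      - (6 * κ ^ 5 * σ - 20 * κ ^ 3 * σ ^ 3 + 6 * κ * σ ^ 5) *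
        (6*z^5*S^5 - 20*z^3*S^3*C^2 + 6*z*S*(C^2)^2) * C := by ring
  rw [h3, h6, h]; ring

theorem circ_cos (κ σ z s : ℝ) :
    (∫ t in (-π)..π, wpol (-σ * cos t + z * κ * sin t) (κ * cos t + z * σ * sin t) (-s * sin t) * cos t)
      = - (2 * π) * ((3 * κ ^ 2 * σ - σ ^ 3) * B1 z s
        + (6 * κ ^ 5 * σ - 20 * κ ^ 3 * σ ^ 3 + 6 * κ * σ ^ 5) * B2 z s) := by
  have hq0 := q0_cont
  have hq1 := q1_cont
  have hq2 := q2_cont
  have ii : ∀ f : ℝ → ℝ, Continuous f → IntervalIntegrable f volume (-π) π :=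
    fun f hf => hf.intervalIntegrable _ _
  let f : ℝ → ℝ := fun S => (q0 (-(s * S)) + (κ ^ 3 - 3 * κ * σ ^ 2) * (q1 (s * S) * (z^3*S^3 - 3*z*S*(1 - S^2)))
        + (κ ^ 6 - 15 * κ ^ 4 * σ ^ 2 + 15 * κ ^ 2 * σ ^ 4 - σ ^ 6) * (q2 (-(s * S)) *
          (z^6*S^6 - 15*z^4*S^4*(1 - S^2) + 15*z^2*S^2*(1 - S^2)^2 - (1 - S^2)^3)))
  have hf : Continuous f := by fun_prop
  have e : ∀ t : ℝ, wpol (-σ * cos t + z * κ * sin t) (κ * cos t + z * σ * sin t) (-s * sin t) * cos t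
      = f (sin t) * cos t - ((3 * κ ^ 2 * σ - σ ^ 3) * (q1 (s*sin t) * (3*z^2*sin t^2 - (1 - sin t^2)) * (1 - sin t^2))
        + (6 * κ ^ 5 * σ - 20 * κ ^ 3 * σ ^ 3 + 6 * κ * σ ^ 5) *
          (q2 (-(s*sin t)) * (6*z^5*sin t^5 - 20*z^3*sin t^3*(1 - sin t^2) + 6*z*sin t*(1 - sin t^2)^2) * (1 - sin t^2))) := by
    intro t
    have hc : cos t ^ 2 = 1 - sin t ^ 2 := cos_sq' t
    rw [wpol_circle _ _ _ _ _ _ hc]
    simp only [f]
    linear_combination (-((3 * κ ^ 2 * σ - σ ^ 3) * (q1 (s * sin t) * (3*z^2*sin t^2 - (1 - sin t^2)))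
        + (6 * κ ^ 5 * σ - 20 * κ ^ 3 * σ ^ 3 + 6 * κ * σ ^ 5) * (q2 (-(s * sin t)) *
          (6*z^5*sin t^5 - 20*z^3*sin t^3*(1 - sin t^2) + 6*z*sin t*(1 - sin t^2)^2)))) * hc
  simp_rw [e]
  rw [integral_sub (ii _ (by fun_prop)) (ii _ (by fun_prop)), int_odd f hf,
    integral_add (ii _ (by fun_prop)) (ii _ (by fun_prop)),
    intervalIntegral.integral_const_mul, intervalIntegral.integral_const_mul, intB1, intB2]
  ring

theorem circ_sin (κ σ z s : ℝ) :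
    (∫ t in (-π)..π, wpol (-σ * cos t + z * κ * sin t) (κ * cos t + z * σ * sin t) (-s * sin t) * sin t)
      = - (2 * π) * (G0 z s + (κ ^ 3 - 3 * κ * σ ^ 2) * G1 z s
        + (κ ^ 6 - 15 * κ ^ 4 * σ ^ 2 + 15 * κ ^ 2 * σ ^ 4 - σ ^ 6) * G2 z s) := by
  have hq0 := q0_cont
  have hq1 := q1_cont
  have hq2 := q2_cont
  have ii : ∀ f : ℝ → ℝ, Continuous f → IntervalIntegrable f volume (-π) π :=
    fun f hf => hf.intervalIntegrable _ _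
  let f : ℝ → ℝ := fun S => ((3 * κ ^ 2 * σ - σ ^ 3) * (q1 (s * S) * (3*z^2*S^2 - (1 - S^2)))
        + (6 * κ ^ 5 * σ - 20 * κ ^ 3 * σ ^ 3 + 6 * κ * σ ^ 5) * (q2 (-(s * S)) *
          (6*z^5*S^5 - 20*z^3*S^3*(1 - S^2) + 6*z*S*(1 - S^2)^2))) * S
  have hf : Continuous f := by fun_prop
  have e : ∀ t : ℝ, wpol (-σ * cos t + z * κ * sin t) (κ * cos t + z * σ * sin t) (-s * sin t) * sin t
      = - (-(q0 (-(s*sin t)) * sin t) + ((κ ^ 3 - 3 * κ * σ ^ 2) * (-(q1 (s*sin t) * (z^3*sin t^3 - 3*z*sin t*(1 - sin t^2)) * sin t))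
        + (κ ^ 6 - 15 * κ ^ 4 * σ ^ 2 + 15 * κ ^ 2 * σ ^ 4 - σ ^ 6) *
          (-(q2 (-(s*sin t)) * (z^6*sin t^6 - 15*z^4*sin t^4*(1 - sin t^2) + 15*z^2*sin t^2*(1 - sin t^2)^2 - (1 - sin t^2)^3) * sin t))))
        - f (sin t) * cos t := by
    intro t
    have hc : cos t ^ 2 = 1 - sin t ^ 2 := cos_sq' t
    rw [wpol_circle _ _ _ _ _ _ hc]
    simp only [f]
    ring
  simp_rw [e]
  rw [integral_sub (ii _ (by fun_prop)) (ii _ (by fun_prop)), int_odd f hf,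
    intervalIntegral.integral_neg,
    integral_add (ii _ (by fun_prop)) (ii _ (by fun_prop)),
    integral_add (ii _ (by fun_prop)) (ii _ (by fun_prop)),
    intervalIntegral.integral_const_mul, intervalIntegral.integral_const_mul, intG0, intG1, intG2]
  ring

/-- the perturbed polynomial -/
def wtau (τ x y z : ℝ) : ℝ := wpol x y z + τ * z

theorem wpol_cont : Continuous (fun p : ℝ × ℝ × ℝ => wpol p.1 p.2.1 p.2.2) := by
  have hq0 := q0_cont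
  have hq1 := q1_cont
  have hq2 := q2_cont
  unfold wpol; fun_prop

/-- away from the poles the section moment does not vanish -/
theorem moment_ne (κ σ z s τ : ℝ) (h1 : κ ^ 2 + σ ^ 2 = 1) (h2 : z ^ 2 + s ^ 2 = 1) (hs : 0 < s)
    (hτ : |τ| ≤ 1 / 10)
    (hcos : (∫ t in (-π)..π, wtau τ (-σ * cos t + z * κ * sin t) (κ * cos t + z * σ * sin t)
      (-s * sin t) * cos t) = 0)
    (hsin : (∫ t in (-π)..π, wtau τ (-σ * cos t + z * κ * sin t) (κ * cos t + z * σ * sin t)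
      (-s * sin t) * sin t) = 0) : False := by
  have ii : ∀ f : ℝ → ℝ, Continuous f → IntervalIntegrable f volume (-π) π :=
    fun f hf => hf.intervalIntegrable _ _
  have hw : Continuous (fun t : ℝ => wpol (-σ * cos t + z * κ * sin t) (κ * cos t + z * σ * sin t) (-s * sin t)) :=
    wpol_cont.comp (f := fun t : ℝ => (-σ * cos t + z * κ * sin t, κ * cos t + z * σ * sin t, -s * sin t)) (by fun_prop)
  have e1 : (∫ t in (-π)..π, wtau τ (-σ * cos t + z * κ * sin t) (κ * cos t + z * σ * sin t)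
      (-s * sin t) * cos t) = - (2 * π) * ((3 * κ ^ 2 * σ - σ ^ 3) * B1 z s
        + (6 * κ ^ 5 * σ - 20 * κ ^ 3 * σ ^ 3 + 6 * κ * σ ^ 5) * B2 z s) := by
    have : ∀ t : ℝ, wtau τ (-σ * cos t + z * κ * sin t) (κ * cos t + z * σ * sin t)
      (-s * sin t) * cos t = wpol (-σ * cos t + z * κ * sin t) (κ * cos t + z * σ * sin t)
      (-s * sin t) * cos t + (-(τ * s)) * (sin t * cos t) := by intro t; unfold wtau; ring
    simp_rw [this]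
    rw [integral_add (ii _ (by fun_prop)) (ii _ (by fun_prop)), circ_cos,
      intervalIntegral.integral_const_mul]
    have h0 : (∫ t in (-π)..π, sin t * cos t) = 0 := int_odd (fun x => x) continuous_id
    rw [h0]; ring
  have e2 : (∫ t in (-π)..π, wtau τ (-σ * cos t + z * κ * sin t) (κ * cos t + z * σ * sin t)
      (-s * sin t) * sin t) = - (2 * π) * (G0 z s + (κ ^ 3 - 3 * κ * σ ^ 2) * G1 z s
        + (κ ^ 6 - 15 * κ ^ 4 * σ ^ 2 + 15 * κ ^ 2 * σ ^ 4 - σ ^ 6) * G2 z s + τ * s / 2) := by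
    have : ∀ t : ℝ, wtau τ (-σ * cos t + z * κ * sin t) (κ * cos t + z * σ * sin t)
      (-s * sin t) * sin t = wpol (-σ * cos t + z * κ * sin t) (κ * cos t + z * σ * sin t)
      (-s * sin t) * sin t + (-(τ * s)) * (sin t ^ 2) := by intro t; unfold wtau; ring
    simp_rw [this]
    rw [integral_add (ii _ (by fun_prop)) (ii _ (by fun_prop)), circ_sin,
      intervalIntegral.integral_const_mul]
    have h0 : (∫ t in (-π)..π, sin t ^ 2) = 2 * π * (1 / 2) := by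
      rw [show (2 : ℕ) = 0 + 2 from rfl, integral_sin_pow]; simp; ring
    rw [h0]; ring
  rw [e1] at hcos
  rw [e2] at hsin
  have hpi : (0 : ℝ) < 2 * π := by positivity
  have hA : (3 * κ ^ 2 * σ - σ ^ 3) * (B1 z s + 2 * (κ ^ 3 - 3 * κ * σ ^ 2) * B2 z s) = 0 := by
    have : - (2 * π) * ((3 * κ ^ 2 * σ - σ ^ 3) * (B1 z s + 2 * (κ ^ 3 - 3 * κ * σ ^ 2) * B2 z s)) = 0 := by
      rw [← hcos]; ring
    rcases mul_eq_zero.mp this with h | h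
    · linarith
    · exact h
  have hB : G0 z s + (κ ^ 3 - 3 * κ * σ ^ 2) * G1 z s
        + (κ ^ 6 - 15 * κ ^ 4 * σ ^ 2 + 15 * κ ^ 2 * σ ^ 4 - σ ^ 6) * G2 z s + τ * s / 2 = 0 := by
    rcases mul_eq_zero.mp hsin with h | h
    · linarith
    · exact h
  set c3 := κ ^ 3 - 3 * κ * σ ^ 2 with hc3
  set s3 := 3 * κ ^ 2 * σ - σ ^ 3 with hs3
  have hcs : c3 ^ 2 + s3 ^ 2 = 1 := by
    have : c3 ^ 2 + s3 ^ 2 = (κ ^ 2 + σ ^ 2) ^ 3 := by rw [hc3, hs3]; ring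
    rw [this, h1]; norm_num
  have hc6 : κ ^ 6 - 15 * κ ^ 4 * σ ^ 2 + 15 * κ ^ 2 * σ ^ 4 - σ ^ 6 = c3 ^ 2 - s3 ^ 2 := by
    rw [hc3, hs3]; ring
  clear_value c3 s3
  clear hc3 hs3 hcos hsin e1 e2
  have hKp := KF_pos z s h2
  have hKm := KF_pos (-z) s (by rw [neg_sq]; exact h2)
  have hGp := GF_pos z s h2
  have hGm := GF_pos (-z) s (by rw [neg_sq]; exact h2)
  have ba := B_add z s h2
  have bs := B_sub z s h2
  have ga := G_add z s h2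
  have gs := G_sub z s h2
  have hs2 : 0 < s ^ 2 := by positivity
  rcases mul_eq_zero.mp hA with h | h
  · -- s3 = 0
    have hc1 : c3 ^ 2 = 1 := by rw [h] at hcs; linarith
    rw [hc6, h] at hB
    have hτ' := abs_le.mp hτ
    have hf : (c3 - 1) * (c3 + 1) = 0 := by linear_combination hc1
    rcases mul_eq_zero.mp hf with h' | h'
    · rw [sub_eq_zero.mp h'] at hB
      have : s * (GF z s + τ / 2) = 0 := by linear_combination hB - ga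
      rcases mul_eq_zero.mp this with h'' | h''
      · exact absurd h'' hs.ne'
      · linarith [hτ'.1]
    · rw [show c3 = -1 by linarith] at hB
      have : s * (GF (-z) s + τ / 2) = 0 := by linear_combination hB - gs
      rcases mul_eq_zero.mp this with h'' | h''
      · exact absurd h'' hs.ne'
      · linarith [hτ'.1]
  · have hc : c3 ^ 2 ≤ 1 := by nlinarith [sq_nonneg s3]
    have hc' := abs_le_one_iff_mul_self_le_one.mpr (by nlinarith : c3 * c3 ≤ 1)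
    have hc'' := abs_le.mp hc'
    have e : s ^ 2 * ((1 + c3) * KF z s + (1 - c3) * KF (-z) s) = 0 := by
      linear_combination 2 * h - (1 + c3) * ba - (1 - c3) * bs
    rcases mul_eq_zero.mp e with h' | h'
    · exact absurd h' hs2.ne'
    · rcases le_or_gt 0 c3 with h3 | h3
      · have u1 := mul_pos (by linarith : 0 < 1 + c3) hKp
        have u2 := mul_nonneg (by linarith : 0 ≤ 1 - c3) hKm.le
        linarith
      · have u1 := mul_nonneg (by linarith : 0 ≤ 1 + c3) hKp.le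
        have u2 := mul_pos (by linarith : 0 < 1 - c3) hKm
        linarith

end
end Loewner
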