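import Pool.Agent.Helper98.Loew.Defs

open MeasureTheory Real Set Metric
open scoped RealInnerProductSpace

namespace Loewner

theorem taylor_bound (W : E3 → ℝ) (hW : ContDiff ℝ 2 W) :
    ∃ (C : ℝ) (g : E3 → E3), 0 < C ∧ (∀ x, ‖x‖ ≤ 1 → |W x| ≤ C) ∧ (∀ x, ‖x‖ ≤ 1 → ‖g x‖ ≤ C) ∧
      (∀ x y, ‖x‖ ≤ 1 → ‖y‖ ≤ 1 → |W y - W x - ⟪g x, y - x⟫| ≤ C * ‖y - x‖ ^ 2) := by
  have hcomp : IsCompact (closedBall (0 : E3) 1) := isCompact_closedBall _ _
  have hd : Differentiable ℝ W := hW.differentiable (by norm_num)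
  have hf1 : ContDiff ℝ 1 (fderiv ℝ W) := hW.fderiv_right (by norm_num)
  obtain ⟨C1, hC1⟩ := hcomp.exists_bound_of_continuousOn (f := W) hd.continuous.continuousOn
  obtain ⟨C2, hC2⟩ := hcomp.exists_bound_of_continuousOn (f := fderiv ℝ W) hf1.continuous.continuousOn
  obtain ⟨K, hK⟩ := LocallyLipschitzOn.exists_lipschitzOnWith_of_compact hcomp
    (hf1.locallyLipschitz.locallyLipschitzOn)
  refine ⟨|C1| + |C2| + K + 1, fun x => (InnerProductSpace.toDual ℝ E3).symm (fderiv ℝ W x),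
    by positivity, ?_, ?_, ?_⟩
  · intro x hx
    have h := hC1 x (by simpa using hx)
    rw [Real.norm_eq_abs] at h
    have h1 := le_abs_self C1
    have h2 := abs_nonneg C2
    have h3 : (0 : ℝ) ≤ K := K.2
    linarith
  · intro x hx
    have h := hC2 x (by simpa using hx)
    rw [LinearIsometryEquiv.norm_map]
    have h1 := le_abs_self C2
    have h2 := abs_nonneg C1
    have h3 : (0 : ℝ) ≤ K := K.2
    linarith
  · intro x y hx hy
    rw [InnerProductSpace.toDual_symm_apply]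
    have hseg : Convex ℝ (segment ℝ x y) := convex_segment x y
    have hsub : segment ℝ x y ⊆ closedBall (0 : E3) 1 :=
      (convex_closedBall (0 : E3) 1).segment_subset (by simpa using hx) (by simpa using hy)
    have key := hseg.norm_image_sub_le_of_norm_hasFDerivWithin_le' (f := W) (f' := fderiv ℝ W)
      (φ := fderiv ℝ W x) (C := K * ‖y - x‖) (x := x) (y := y)
      (fun z _ => (hd z).hasFDerivAt.hasFDerivWithinAt)
      (by
        intro z hz
        have hz1 := hsub hz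
        have hx1 : x ∈ closedBall (0 : E3) 1 := by simpa using hx
        have h := hK.dist_le_mul z hz1 x hx1
        rw [dist_eq_norm, dist_eq_norm] at h
        refine h.trans ?_
        apply mul_le_mul_of_nonneg_left _ K.2
        have := norm_sub_le_of_mem_segment hz
        rw [norm_sub_rev y x]
        calc ‖z - x‖ = ‖z - x‖ := rfl
          _ ≤ ‖x - y‖ := by
            obtain ⟨a, b, ha, hb, hab, rfl⟩ := hz
            have : a • x + b • y - x = b • (y - x) := by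
              have : a = 1 - b := by linarith
              rw [this]; module
            rw [this, norm_smul, Real.norm_of_nonneg hb, norm_sub_rev x y]
            nlinarith [norm_nonneg (y - x)])
      (left_mem_segment ℝ x y) (right_mem_segment ℝ x y)
    rw [Real.norm_eq_abs] at key
    refine key.trans ?_
    have h1 := abs_nonneg C1
    have h2 := abs_nonneg C2
    have h4 := sq_nonneg ‖y - x‖
    nlinarith

theorem tangent_ineq (a b : ℝ) (ha : 0 < a) (hb : 0 < b) :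
    1 / a - (b ^ 3 - a ^ 3) / (3 * a ^ 4) ≤ 1 / b := by
  have h : 1 / b - (1 / a - (b ^ 3 - a ^ 3) / (3 * a ^ 4)) =
      (a - b) ^ 2 * (3 * a ^ 2 + 2 * a * b + b ^ 2) / (3 * a ^ 4 * b) := by
    field_simp
    ring
  have h2 : 0 ≤ (a - b) ^ 2 * (3 * a ^ 2 + 2 * a * b + b ^ 2) / (3 * a ^ 4 * b) := by positivity
  linarith

theorem starSet_eq (h : E3 → ℝ) (g : E3 → E3) (δ : ℝ) (h0 : 0 ≤ h 0)
    (hlow : ∀ x, ‖x‖ = 1 → 1 / 2 ≤ h x)
    (hg : ∀ x, ‖x‖ = 1 → ‖g x‖ ≤ δ)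
    (hT : ∀ x y, ‖x‖ = 1 → ‖y‖ = 1 → |h y - h x - ⟪g x, y - x⟫| ≤ δ * ‖y - x‖ ^ 2)
    (hδ : δ ≤ 1 / 2) :
    ∃ n : E3 → E3, starSet h = ⋂ θ ∈ {x : E3 | ‖x‖ = 1}, {x | ⟪n θ, x⟫ ≤ 1} := by
  let ρ : E3 → ℝ := fun x => (h x) ^ (1 / 3 : ℝ)
  have hρ : ∀ x, ‖x‖ = 1 → 0 < ρ x := fun x hx => Real.rpow_pos_of_pos (by linarith [hlow x hx]) _
  have hρ3 : ∀ x, ‖x‖ = 1 → ρ x ^ 3 = h x := by
    intro x hx
    simp only [ρ]
    rw [← Real.rpow_natCast, ← Real.rpow_mul (by linarith [hlow x hx])]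
    norm_num
  let v : E3 → E3 := fun x => (-(1 / (3 * ρ x ^ 4))) • g x
  let n : E3 → E3 := fun x => (1 / ρ x - ⟪v x, x⟫) • x + v x
  have hn1 : ∀ x, ‖x‖ = 1 → ⟪n x, x⟫ = 1 / ρ x := by
    intro x hx
    simp only [n]
    rw [inner_add_left, inner_smul_left, real_inner_self_eq_norm_sq, hx]
    simp
  have hn2 : ∀ x y, ‖x‖ = 1 → ‖y‖ = 1 → ⟪n x, y⟫ ≤ 1 / ρ y := by
    intro x y hx hy
    have ha := hρ x hx
    have hb := hρ y hy
    have ha3 := hρ3 x hx
    have hb3 := hρ3 y hy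
    have t := tangent_ineq (ρ x) (ρ y) ha hb
    rw [ha3, hb3] at t
    have hTT := abs_le.mp (hT x y hx hy)
    have hxy : ‖y - x‖ ^ 2 = 2 - 2 * ⟪x, y⟫ := by
      rw [norm_sub_sq_real, hx, hy, real_inner_comm]; ring
    have e1 : ⟪n x, y⟫ = 1 / ρ x + ⟪v x, y - x⟫ - ‖y - x‖ ^ 2 / 2 * (1 / ρ x - ⟪v x, x⟫) := by
      simp only [n]
      rw [inner_add_left, inner_smul_left, hxy, inner_sub_right]
      simp only [conj_trivial]
      ring
    have e2 : ⟪v x, y - x⟫ = -(1 / (3 * ρ x ^ 4)) * ⟪g x, y - x⟫ := by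
      simp only [v]; rw [inner_smul_left]; simp
    have e3 : |⟪v x, x⟫| ≤ δ / (3 * ρ x ^ 4) := by
      have : ⟪v x, x⟫ = -(1 / (3 * ρ x ^ 4)) * ⟪g x, x⟫ := by
        simp only [v]; rw [inner_smul_left]; simp
      rw [this, abs_mul, abs_neg, abs_of_pos (by positivity)]
      have h1 : |⟪g x, x⟫| ≤ δ := by
        refine (abs_real_inner_le_norm _ _).trans ?_
        rw [hx, mul_one]; exact hg x hx
      have h2 : 0 < 1 / (3 * ρ x ^ 4) := by positivity
      calc 1 / (3 * ρ x ^ 4) * |⟪g x, x⟫| ≤ 1 / (3 * ρ x ^ 4) * δ := by gcongr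
        _ = _ := by ring
    have e3' := abs_le.mp e3
    rw [e1, e2]
    have hc : 0 < 1 / (3 * ρ x ^ 4) := by positivity
    have hD : 0 ≤ ‖y - x‖ ^ 2 := sq_nonneg _
    -- lower bound for 1/ρ y
    have t1 : 1 / ρ x - (1 / (3 * ρ x ^ 4)) * (⟪g x, y - x⟫ + δ * ‖y - x‖ ^ 2) ≤ 1 / ρ y := by
      refine le_trans ?_ t
      have : (h y - h x) / (3 * ρ x ^ 4) = (1 / (3 * ρ x ^ 4)) * (h y - h x) := by ring
      rw [this]
      have : h y - h x ≤ ⟪g x, y - x⟫ + δ * ‖y - x‖ ^ 2 := by linarith [hTT.2]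
      have := mul_le_mul_of_nonneg_left this hc.le
      linarith
    have hA : 1 / ρ x = 3 * h x * (1 / (3 * ρ x ^ 4)) := by
      rw [← ha3]; field_simp
    have t2 : (1 / (3 * ρ x ^ 4)) * δ ≤ 1 / 2 * (1 / ρ x - ⟪v x, x⟫) := by
      have h5 : ⟪v x, x⟫ ≤ δ * (1 / (3 * ρ x ^ 4)) := by
        refine e3'.2.trans (le_of_eq (by ring))
      rw [hA]
      have h6 := hlow x hx
      nlinarith [mul_le_mul_of_nonneg_right (by linarith : 3 * δ ≤ 3 * h x) hc.le]
    have t3 := mul_le_mul_of_nonneg_right t2 hD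
    nlinarith
  refine ⟨n, ?_⟩
  ext x
  simp only [mem_iInter, mem_ofPred_eq, starSet]
  constructor
  · intro hx θ hθ
    rcases eq_or_ne x 0 with rfl | hx0
    · simp
    · have hr : 0 < ‖x‖ := norm_pos_iff.mpr hx0
      set η := ‖x‖⁻¹ • x with hη
      have hη1 : ‖η‖ = 1 := by
        rw [hη, norm_smul, norm_inv, norm_norm]; exact inv_mul_cancel₀ hr.ne'
      have hxe : x = ‖x‖ • η := by rw [hη, smul_smul, mul_inv_cancel₀ hr.ne', one_smul]
      have hle : ‖x‖ ≤ ρ η := by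
        rw [← hρ3 η hη1] at hx
        exact le_of_pow_le_pow_left₀ (by norm_num) (hρ η hη1).le hx
      have : ⟪n θ, x⟫ = ‖x‖ * ⟪n θ, η⟫ := by
        conv_lhs => rw [hxe]
        rw [inner_smul_right]
      rw [this]
      calc ‖x‖ * ⟪n θ, η⟫ ≤ ‖x‖ * (1 / ρ η) := by
            apply mul_le_mul_of_nonneg_left (hn2 θ η hθ hη1) hr.le
        _ ≤ ρ η * (1 / ρ η) := by
            apply mul_le_mul_of_nonneg_right hle
            have := hρ η hη1
            positivity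
        _ = 1 := by
            have := hρ η hη1
            field_simp
  · intro hx
    rcases eq_or_ne x 0 with rfl | hx0
    · simpa using h0
    · have hr : 0 < ‖x‖ := norm_pos_iff.mpr hx0
      set η := ‖x‖⁻¹ • x with hη
      have hη1 : ‖η‖ = 1 := by
        rw [hη, norm_smul, norm_inv, norm_norm]; exact inv_mul_cancel₀ hr.ne'
      have hxe : x = ‖x‖ • η := by rw [hη, smul_smul, mul_inv_cancel₀ hr.ne', one_smul]
      have h1 := hx η hη1
      have : ⟪n η, x⟫ = ‖x‖ * (1 / ρ η) := by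
        conv_lhs => rw [hxe]
        rw [inner_smul_right, hn1 η hη1]
      rw [this] at h1
      have h2 := hρ η hη1
      have hle : ‖x‖ ≤ ρ η := by
        have := mul_le_mul_of_nonneg_right h1 h2.le
        field_simp at this
        linarith
      rw [← hρ3 η hη1]
      exact pow_le_pow_left₀ hr.le hle 3

theorem starSet_convex (h : E3 → ℝ) (g : E3 → E3) (δ : ℝ) (h0 : 0 ≤ h 0)
    (hlow : ∀ x, ‖x‖ = 1 → 1 / 2 ≤ h x)
    (hg : ∀ x, ‖x‖ = 1 → ‖g x‖ ≤ δ)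
    (hT : ∀ x y, ‖x‖ = 1 → ‖y‖ = 1 → |h y - h x - ⟪g x, y - x⟫| ≤ δ * ‖y - x‖ ^ 2)
    (hδ : δ ≤ 1 / 2) : Convex ℝ (starSet h) ∧ IsClosed (starSet h) := by
  obtain ⟨n, hn⟩ := starSet_eq h g δ h0 hlow hg hT hδ
  rw [hn]
  constructor
  · apply convex_iInter₂
    intro θ _
    exact convex_halfSpace_le (IsLinearMap.mk (fun x y => inner_add_right _ _ _)
      (fun c x => by rw [inner_smul_right]; rfl)) 1
  · apply isClosed_biInter
    intro θ _
    exact isClosed_le (by fun_prop) continuous_const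

theorem starSet_bdd (h : E3 → ℝ) (hup : ∀ x, ‖x‖ = 1 → h x ≤ 2) : starSet h ⊆ closedBall 0 2 := by
  intro x hx
  rw [mem_closedBall_zero_iff]
  by_contra hcon
  push Not at hcon
  have hr : 0 < ‖x‖ := by linarith
  have hη1 : ‖‖x‖⁻¹ • x‖ = 1 := by
    rw [norm_smul, norm_inv, norm_norm]; exact inv_mul_cancel₀ hr.ne'
  have h1 : ‖x‖ ^ 3 ≤ h (‖x‖⁻¹ • x) := hx
  have h2 := hup _ hη1
  have h3 : (2 : ℝ) ^ 3 ≤ ‖x‖ ^ 3 := pow_le_pow_left₀ (by norm_num) hcon.le 3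
  linarith

theorem starSet_ball (h : E3 → ℝ) (h0 : 0 ≤ h 0) (hlow : ∀ x, ‖x‖ = 1 → 1 / 2 ≤ h x) :
    ball 0 (1 / 2) ⊆ starSet h := by
  intro x hx
  rw [mem_ball_zero_iff] at hx
  rcases eq_or_ne x 0 with rfl | hx0
  · simpa [starSet] using h0
  · have hr : 0 < ‖x‖ := norm_pos_iff.mpr hx0
    have hη1 : ‖‖x‖⁻¹ • x‖ = 1 := by
      rw [norm_smul, norm_inv, norm_norm]; exact inv_mul_cancel₀ hr.ne'
    show ‖x‖ ^ 3 ≤ h (‖x‖⁻¹ • x)
    have h2 := hlow _ hη1
    have h3 : ‖x‖ ^ 3 ≤ (1 / 2 : ℝ) ^ 3 := pow_le_pow_left₀ hr.le hx.le 3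
    norm_num at h3
    linarith

end Loewner
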