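import Mathlib

namespace Loewner

abbrev E3 := EuclideanSpace ℝ (Fin 3)

/-- star body whose radial function cubed is `h` -/
def starSet (h : E3 → ℝ) : Set E3 := {x | ‖x‖ ^ 3 ≤ h (‖x‖⁻¹ • x)}

/-- vector with the given coordinates -/
noncomputable def vec (x y z : ℝ) : E3 := !₂[x, y, z]

end Loewner
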