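import Pool.Agent.Helper98.Loew.Defs

open MeasureTheory Real Set
open scoped RealInnerProductSpace

namespace Loewner



theorem norm_cs (a b : E3) (ha : ‖a‖ = 1) (hb : ‖b‖ = 1) (hab : ⟪a, b⟫ = 0) (t : ℝ) :
    ‖cos t • a + sin t • b‖ = 1 := by
  have h1 : ‖cos t • a + sin t • b‖ * ‖cos t • a + sin t • b‖ = 1 := by
    rw [norm_add_mul_self_real, norm_smul, norm_smul, ha, hb, real_inner_smul_left,
      real_inner_smul_right, hab]
    simp only [norm_eq_abs, mul_one, mul_zero, add_zero, abs_mul_abs_self]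
    nlinarith [sin_sq_add_cos_sq t]
  nlinarith [norm_nonneg (cos t • a + sin t • b)]

theorem inner_int (H φ : ℝ) (hH : 0 < H) :
    ∫ r in Ioi (0 : ℝ), (if r ^ 3 ≤ H then r * (r * φ) else 0) = H * φ / 3 := by
  obtain ⟨ρ, hρ0, hρ⟩ : ∃ ρ : ℝ, 0 < ρ ∧ ρ ^ 3 = H := by
    refine ⟨H ^ ((1 : ℝ) / 3), rpow_pos_of_pos hH _, ?_⟩
    rw [← rpow_natCast, ← rpow_mul hH.le]
    norm_num
  have e1 : ∫ r in Ioi (0 : ℝ), (if r ^ 3 ≤ H then r * (r * φ) else 0) =
      ∫ r in Ioi (0 : ℝ), (Iic ρ).indicator (fun r => r * (r * φ)) r := by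
    apply setIntegral_congr_fun measurableSet_Ioi
    intro r hr
    have hr0 : 0 < r := hr
    by_cases h : r ≤ ρ
    · have : r ^ 3 ≤ H := by rw [← hρ]; exact pow_le_pow_left₀ hr0.le h 3
      simp [this, h]
    · have : ¬ r ^ 3 ≤ H := by
        rw [← hρ, not_le]
        exact pow_lt_pow_left₀ (not_le.mp h) hρ0.le (by norm_num)
      simp [this, h]
  rw [e1, setIntegral_indicator measurableSet_Iic, Ioi_inter_Iic,
    ← intervalIntegral.integral_of_le hρ0.le]
  have e2 : (fun r : ℝ => r * (r * φ)) = fun r => r ^ 2 * φ := by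
    funext r; ring
  rw [e2, intervalIntegral.integral_mul_const, integral_pow]
  rw [← hρ]
  norm_num
  ring

theorem meas_star (h : E3 → ℝ) (hc : Continuous h) (a b : E3) :
    MeasurableSet {c : ℂ | c.re • a + c.im • b ∈ starSet h} := by
  have hx : Continuous (fun c : ℂ => c.re • a + c.im • b) := by fun_prop
  have hxm := hx.measurable
  have h1 : Measurable (fun c : ℂ => ‖c.re • a + c.im • b‖ ^ 3) := (hx.norm.pow 3).measurable
  have h2 : Measurable (fun c : ℂ =>
      h (‖c.re • a + c.im • b‖⁻¹ • (c.re • a + c.im • b))) :=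
    hc.measurable.comp ((hxm.norm.inv).smul hxm)
  exact measurableSet_le h1 h2

theorem key (h : E3 → ℝ) (hc : Continuous h) (hpos : ∀ x : E3, ‖x‖ = 1 → 0 < h x)
    (a b : E3) (ha : ‖a‖ = 1) (hb : ‖b‖ = 1) (hab : ⟪a, b⟫ = 0) (q : ℂ → ℝ) (φ : ℝ → ℝ)
    (hφ : Continuous φ) (hφ1 : ∀ t, |φ t| ≤ 1)
    (hq : ∀ p : ℝ × ℝ, q (Complex.polarCoord.symm p) = p.1 * φ p.2) :
    (∫ c : ℂ in {c : ℂ | c.re • a + c.im • b ∈ starSet h}, q c)
        = (∫ t in (-π)..π, h (cos t • a + sin t • b) * φ t) / 3 := by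
  set H : ℝ → ℝ := fun t => h (cos t • a + sin t • b) with hH
  have hHc : Continuous H := by
    apply hc.comp
    fun_prop
  have hHpos : ∀ t, 0 < H t := fun t => hpos _ (norm_cs a b ha hb hab t)
  -- a bound
  obtain ⟨R, hR0, hR⟩ : ∃ R : ℝ, 0 < R ∧ ∀ t ∈ Ioo (-π) π, H t ≤ R ^ 3 := by
    obtain ⟨C, hC⟩ := (isCompact_Icc (a := -π) (b := π)).exists_bound_of_continuousOn
      hHc.continuousOn
    refine ⟨max C 1, by positivity, ?_⟩
    intro t ht
    have h1 := hC t ⟨ht.1.le, ht.2.le⟩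
    have h2 : H t ≤ C := (le_abs_self _).trans h1
    have h3 : (1 : ℝ) ≤ max C 1 := le_max_right _ _
    calc H t ≤ C := h2
      _ ≤ max C 1 := le_max_left _ _
      _ ≤ (max C 1) ^ 3 := le_self_pow₀ h3 (by norm_num)
  rw [← integral_indicator (meas_star h hc a b), ← Complex.integral_comp_polarCoord_symm]
  -- rewrite the integrand
  have e1 : ∫ p in polarCoord.target, p.1 • ({c : ℂ | c.re • a + c.im • b ∈ starSet h}.indicator
      (fun c => q c) (Complex.polarCoord.symm p)) =
      ∫ p in Ioi (0 : ℝ) ×ˢ Ioo (-π) π, (if p.1 ^ 3 ≤ H p.2 then p.1 * (p.1 * φ p.2) else 0) := by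
    apply setIntegral_congr_fun (measurableSet_Ioi.prod measurableSet_Ioo)
    rintro ⟨r, t⟩ hp
    have hr : 0 < r := hp.1
    have e : (Complex.polarCoord.symm (r, t)).re • a + (Complex.polarCoord.symm (r, t)).im • b =
        r • (cos t • a + sin t • b) := by
      rw [Complex.polarCoord_symm_apply]
      simp [smul_smul, Complex.cos_ofReal_re, Complex.sin_ofReal_re]
    have en : ‖r • (cos t • a + sin t • b)‖ = r := by
      rw [norm_smul, norm_cs a b ha hb hab, norm_eq_abs, abs_of_pos hr, mul_one]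
    have hmem : (Complex.polarCoord.symm (r, t)) ∈
        {c : ℂ | c.re • a + c.im • b ∈ starSet h} ↔ r ^ 3 ≤ H t := by
      simp only [mem_ofPred_eq, e, starSet, en, smul_smul, inv_mul_cancel₀ hr.ne', one_smul]
      rfl
    simp only [smul_eq_mul]
    by_cases h3 : r ^ 3 ≤ H t
    · rw [if_pos h3, indicator_of_mem (hmem.mpr h3), hq]
    · rw [if_neg h3, indicator_of_notMem (fun hh => h3 (hmem.mp hh)), mul_zero]
  rw [e1]
  have hint : IntegrableOn (fun p : ℝ × ℝ => if p.1 ^ 3 ≤ H p.2 then p.1 * (p.1 * φ p.2) else 0)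
      (Ioi (0 : ℝ) ×ˢ Ioo (-π) π) (volume.prod volume) := by
    have hm : Measurable (fun p : ℝ × ℝ =>
        if p.1 ^ 3 ≤ H p.2 then p.1 * (p.1 * φ p.2) else (0 : ℝ)) := by
      apply Measurable.ite
      · apply measurableSet_le
        · fun_prop
        · exact (hHc.comp continuous_snd).measurable
      · exact (continuous_fst.mul (continuous_fst.mul (hφ.comp continuous_snd))).measurable
      · exact measurable_const
    have h1 : IntegrableOn (fun p : ℝ × ℝ =>
        if p.1 ^ 3 ≤ H p.2 then p.1 * (p.1 * φ p.2) else (0 : ℝ))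
        (Ioc (0 : ℝ) R ×ˢ Ioo (-π) π) (volume.prod volume) := by
      apply Measure.integrableOn_of_bounded (M := R * (R * 1))
      · rw [Measure.prod_prod]
        exact (ENNReal.mul_lt_top (by simp) (by simp)).ne
      · exact hm.aestronglyMeasurable
      · rw [ae_restrict_iff' (measurableSet_Ioc.prod measurableSet_Ioo)]
        refine Filter.Eventually.of_forall ?_
        rintro ⟨r, t⟩ ⟨hr, ht⟩
        simp only
        have hr0 : 0 < r := hr.1
        have hrR : r ≤ R := hr.2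
        split_ifs
        · rw [norm_eq_abs, abs_mul, abs_mul, abs_of_pos hr0]
          have := hφ1 t
          gcongr
        · rw [norm_zero]; positivity
    apply h1.of_forall_sdiff_eq_zero (measurableSet_Ioi.prod measurableSet_Ioo)
    rintro ⟨r, t⟩ ⟨⟨hr, ht⟩, hn⟩
    have hrR : R < r := by
      by_contra hle
      exact hn ⟨⟨hr, not_lt.mp hle⟩, ht⟩
    simp only
    rw [if_neg]
    rw [not_le]
    exact (hR t ht).trans_lt (pow_lt_pow_left₀ hrR hR0.le (by norm_num))
  rw [Measure.volume_eq_prod, ← Measure.prod_restrict]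
  unfold IntegrableOn at hint
  rw [← Measure.prod_restrict] at hint
  rw [integral_prod_symm _ hint]
  simp only
  have e3 : ∀ t, ∫ r in Ioi (0 : ℝ), (if r ^ 3 ≤ H t then r * (r * φ t) else 0) =
      H t * φ t / 3 := fun t => inner_int (H t) (φ t) (hHpos t)
  simp_rw [e3]
  rw [← integral_Ioc_eq_integral_Ioo, ← intervalIntegral.integral_of_le (by linarith [pi_pos]),
    intervalIntegral.integral_div]

theorem section_moment (h : E3 → ℝ) (hc : Continuous h) (hpos : ∀ x : E3, ‖x‖ = 1 → 0 < h x)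
    (a b : E3) (ha : ‖a‖ = 1) (hb : ‖b‖ = 1) (hab : ⟪a, b⟫ = 0) :
    (∫ c : ℂ in {c : ℂ | c.re • a + c.im • b ∈ starSet h}, c.re)
        = (∫ t in (-π)..π, h (cos t • a + sin t • b) * cos t) / 3 ∧
    (∫ c : ℂ in {c : ℂ | c.re • a + c.im • b ∈ starSet h}, c.im)
        = (∫ t in (-π)..π, h (cos t • a + sin t • b) * sin t) / 3 := by
  constructor
  · apply key h hc hpos a b ha hb hab Complex.re cos continuous_cos abs_cos_le_one
    intro p
    rw [Complex.polarCoord_symm_apply]
    simp [Complex.cos_ofReal_re]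
  · apply key h hc hpos a b ha hb hab Complex.im sin continuous_sin abs_sin_le_one
    intro p
    rw [Complex.polarCoord_symm_apply]
    simp [Complex.sin_ofReal_re]

end Loewner
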