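import Pool.Agent.Helper98.Loew.Defs

open MeasureTheory Real Set Metric

namespace Loewner



lemma measurableSet_starSet (h : E3 → ℝ) (hc : Continuous h) : MeasurableSet (starSet h) := by
  unfold starSet
  apply measurableSet_le
  · fun_prop
  · exact hc.measurable.comp (by fun_prop)

/-- inner integral -/
lemma inner_integral (H : ℝ) (hH : 0 < H) (c : ℝ) :
    (∫ r : Ioi (0 : ℝ), (if (r : ℝ) ^ 3 ≤ H then (r : ℝ) * c else 0) ∂(Measure.volumeIoiPow 2))
      = (H ^ (4 / 3 : ℝ) * c) / 4 := by
  set R : ℝ := H ^ (1 / 3 : ℝ) with hR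
  have hR0 : 0 < R := Real.rpow_pos_of_pos hH _
  have hR3 : R ^ 3 = H := by
    rw [hR, ← Real.rpow_natCast, ← Real.rpow_mul hH.le]; norm_num
  have hR4 : R ^ 4 = H ^ (4 / 3 : ℝ) := by
    rw [hR, ← Real.rpow_natCast, ← Real.rpow_mul hH.le]; norm_num
  simp only [Measure.volumeIoiPow, ENNReal.ofReal]
  rw [integral_withDensity_eq_integral_smul,
    integral_subtype_comap measurableSet_Ioi
      (fun a : ℝ ↦ Real.toNNReal (a ^ 2) • (if a ^ 3 ≤ H then a * c else 0))]
  · have h1 : ∀ a ∈ Ioi (0 : ℝ), Real.toNNReal (a ^ 2) • (if a ^ 3 ≤ H then a * c else 0)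
        = (Ioc 0 R).indicator (fun a => a ^ 3 * c) a := by
      intro a ha
      have ha : 0 < a := ha
      rw [NNReal.smul_def, Real.coe_toNNReal _ (by positivity)]
      by_cases hle : a ^ 3 ≤ H
      · have : a ≤ R := by
          rw [← hR3] at hle
          exact le_of_pow_le_pow_left₀ (by norm_num) hR0.le hle
        rw [if_pos hle, indicator_of_mem (show a ∈ Ioc 0 R from ⟨ha, this⟩)]
        simp only [smul_eq_mul]; ring
      · have : ¬ a ≤ R := by
          intro h2
          apply hle
          rw [← hR3]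
          exact pow_le_pow_left₀ ha.le h2 3
        rw [if_neg hle, indicator_of_notMem (fun h3 => this h3.2)]
        simp
    rw [setIntegral_congr_fun measurableSet_Ioi h1, setIntegral_indicator measurableSet_Ioc]
    have h2 : Ioi (0 : ℝ) ∩ Ioc 0 R = Ioc 0 R := by
      ext a; simp only [mem_inter_iff, mem_Ioi, mem_Ioc]; tauto
    rw [h2, ← intervalIntegral.integral_of_le hR0.le, intervalIntegral.integral_mul_const,
      integral_pow, ← hR4]
    simp
    ring
  · exact (measurable_subtype_coe.pow_const _).real_toNNReal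

theorem volume_moment (h : E3 → ℝ) (hc : Continuous h) (hpos : ∀ x : E3, ‖x‖ = 1 → 0 < h x)
    (i : Fin 3) :
    (∫ x in starSet h, x i)
      = (∫ θ : sphere (0 : E3) 1, (h θ) ^ (4 / 3 : ℝ) * (θ : E3) i ∂((volume : Measure E3).toSphere)) / 4 := by
  have hms := measurableSet_starSet h hc
  set G : E3 → ℝ := (starSet h).indicator (fun x => x i) with hG
  set g : sphere (0 : E3) 1 × Ioi (0 : ℝ) → ℝ := fun p =>
    if (p.2 : ℝ) ^ 3 ≤ h p.1 then (p.2 : ℝ) * (p.1 : E3) i else 0 with hg
  have hdim : Module.finrank ℝ E3 - 1 = 2 := by simp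
  have e1 : (∫ x in starSet h, x i) = ∫ x : ({(0 : E3)}ᶜ : Set E3), G x ∂((volume : Measure E3).comap (↑)) := by
    rw [integral_subtype_comap (measurableSet_singleton _).compl G,
        restrict_compl_singleton, hG, integral_indicator hms]
  have hGg : ∀ x : ({(0 : E3)}ᶜ : Set E3), G x = g (homeomorphUnitSphereProd E3 x) := by
    intro x
    have hx0 : (x : E3) ≠ 0 := x.2
    have hn : ‖(x : E3)‖ ≠ 0 := norm_ne_zero_iff.mpr hx0
    simp only [hG, hg, homeomorphUnitSphereProd_apply_snd_coe, homeomorphUnitSphereProd_apply_fst_coe]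
    by_cases hx : (x : E3) ∈ starSet h
    · have hx' : ‖(x : E3)‖ ^ 3 ≤ h (‖(x : E3)‖⁻¹ • (x : E3)) := hx
      rw [indicator_of_mem hx, if_pos hx']
      simp only [PiLp.smul_apply, smul_eq_mul]
      rw [← mul_assoc, mul_inv_cancel₀ hn, one_mul]
    · have hx' : ¬ ‖(x : E3)‖ ^ 3 ≤ h (‖(x : E3)‖⁻¹ • (x : E3)) := hx
      rw [indicator_of_notMem hx, if_neg hx']
  have e2 : (∫ x : ({(0 : E3)}ᶜ : Set E3), G x ∂((volume : Measure E3).comap (↑)))
      = ∫ p, g p ∂((volume : Measure E3).toSphere.prod (Measure.volumeIoiPow 2)) := by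
    have := (volume : Measure E3).measurePreserving_homeomorphUnitSphereProd.integral_comp
        (Homeomorph.measurableEmbedding _) g
    rw [hdim] at this
    rw [← this]
    exact integral_congr_ae (Filter.Eventually.of_forall hGg)
  have hgm : Measurable g := by
    apply Measurable.ite
    · apply measurableSet_le
      · fun_prop
      · exact hc.measurable.comp (by fun_prop)
    · apply Measurable.mul
      · fun_prop
      · have : Continuous (fun p : sphere (0 : E3) 1 × Ioi (0 : ℝ) => (p.1 : E3) i) := by fun_prop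
        exact this.measurable
    · exact measurable_const
  -- bound for h on the sphere
  obtain ⟨B, hB⟩ : ∃ B : ℝ, ∀ θ : sphere (0 : E3) 1, h θ ≤ B := by
    have hcs : IsCompact (sphere (0 : E3) 1) := isCompact_sphere _ _
    obtain ⟨B, hB⟩ := (hcs.image hc).bddAbove
    exact ⟨B, fun θ => hB ⟨θ, θ.2, rfl⟩⟩
  have hgi : Integrable g ((volume : Measure E3).toSphere.prod (Measure.volumeIoiPow 2)) := by
    set R0 : ℝ := max B 1 + 1 with hR0
    have hR1 : 1 < R0 := by
      have := le_max_right B 1
      linarith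
    have hRB : B < R0 := by
      have := le_max_left B 1
      linarith
    have hR0' : (0 : ℝ) < R0 := by linarith
    set s : Set (sphere (0 : E3) 1 × Ioi (0 : ℝ)) := univ ×ˢ Iio ⟨R0, hR0'⟩ with hs
    have hsm : MeasurableSet s := MeasurableSet.univ.prod measurableSet_Iio
    have hsfin : ((volume : Measure E3).toSphere.prod (Measure.volumeIoiPow 2)) s ≠ ⊤ := by
      rw [hs, Measure.prod_prod, Measure.volumeIoiPow_apply_Iio]
      exact ENNReal.mul_ne_top (measure_ne_top _ _) ENNReal.ofReal_ne_top
    have hbd : Integrable (s.indicator (fun _ => R0))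
        ((volume : Measure E3).toSphere.prod (Measure.volumeIoiPow 2)) := by
      rw [integrable_indicator_iff hsm]
      exact integrableOn_const hsfin
    refine hbd.mono' hgm.aestronglyMeasurable (Filter.Eventually.of_forall fun p => ?_)
    have hp0 : (0 : ℝ) < (p.2 : ℝ) := p.2.2
    have hθ : |(p.1 : E3) i| ≤ 1 := by
      have h1 := PiLp.norm_apply_le (p.1 : E3) i
      have h2 : ‖(p.1 : E3)‖ = 1 := by simp
      rw [h2] at h1
      exact h1
    simp only [hg]
    by_cases hle : (p.2 : ℝ) ^ 3 ≤ h p.1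
    · have hlt : (p.2 : ℝ) < R0 := by
        by_contra hge
        push Not at hge
        have h3 : (p.2 : ℝ) ≤ (p.2 : ℝ) ^ 3 := by
          have h4 : (1 : ℝ) ≤ p.2 := by linarith
          exact le_self_pow₀ h4 (by norm_num)
        have := hB p.1
        linarith
      have hps : p ∈ s := ⟨mem_univ _, hlt⟩
      rw [if_pos hle, indicator_of_mem hps, Real.norm_eq_abs, abs_mul, abs_of_pos hp0]
      calc (p.2 : ℝ) * |(p.1 : E3) i| ≤ (p.2 : ℝ) * 1 := by gcongr
        _ ≤ R0 := by linarith
    · rw [if_neg hle, norm_zero]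
      exact indicator_nonneg (fun _ _ => hR0'.le) p
  rw [e1, e2, integral_prod _ hgi, ← integral_div]
  apply integral_congr_ae
  filter_upwards with θ
  exact inner_integral (h θ) (hpos θ (by simp)) ((θ : E3) i)

end Loewner
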