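import Pool.Agent.Helper98.Loew.Defs

open MeasureTheory Real Set Module
open scoped RealInnerProductSpace

namespace Loewner


/-- averaging over a plane section through `0` versus integrals over `ℂ` -/
theorem plane_section (K : Set E3) (hK : MeasurableSet K) (hb : Bornology.IsBounded K)
    (hint : (0 : E3) ∈ interior K)
    (a b : E3) (ha : ‖a‖ = 1) (hb' : ‖b‖ = 1) (hab : ⟪a, b⟫ = 0)
    (H : AffineSubspace ℝ E3) (hH : (H : Set E3) = Set.range (fun c : ℂ => c.re • a + c.im • b)) :
    (⨍ x in K ∩ (H : Set E3), x ∂(μHE[2] : Measure E3)) = 0 ↔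
      ((∫ c : ℂ in {c : ℂ | c.re • a + c.im • b ∈ K}, c.re) = 0 ∧
       (∫ c : ℂ in {c : ℂ | c.re • a + c.im • b ∈ K}, c.im) = 0) := by
  -- the linear isometry
  let ιl : ℂ →ₗ[ℝ] E3 :=
    { toFun := fun c => c.re • a + c.im • b
      map_add' := by
        intro x y
        simp only [Complex.add_re, Complex.add_im, add_smul]
        abel
      map_smul' := by
        intro r x
        simp only [Complex.real_smul, Complex.mul_re, Complex.mul_im, Complex.ofReal_re,
          Complex.ofReal_im, zero_mul, sub_zero, add_zero, RingHom.id_apply, smul_add, smul_smul]}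
  have hιn : ∀ c : ℂ, ‖ιl c‖ = ‖c‖ := by
    intro c
    have h1 : ‖ιl c‖ ^ 2 = ‖c‖ ^ 2 := by
      show ‖c.re • a + c.im • b‖ ^ 2 = ‖c‖ ^ 2
      rw [norm_add_sq_real, norm_smul, norm_smul, ha, hb', inner_smul_left, inner_smul_right, hab,
        ← Complex.normSq_eq_norm_sq, Complex.normSq_apply]
      simp only [mul_zero, mul_one, Real.norm_eq_abs, sq_abs]
      ring
    exact (pow_left_inj₀ (norm_nonneg _) (norm_nonneg _) two_ne_zero).mp h1
  let ι : ℂ →ₗᵢ[ℝ] E3 := ⟨ιl, hιn⟩
  have hι : ∀ c : ℂ, ι c = c.re • a + c.im • b := fun c => rfl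
  have hιe : MeasurableEmbedding ι := ι.isometry.isClosedEmbedding.measurableEmbedding
  have hvol : (μHE[2] : Measure ℂ) = volume := by
    have := InnerProductSpace.euclideanHausdorffMeasure_eq_volume (V := ℂ)
    rwa [Complex.finrank_real_complex] at this
  have hmap : Measure.map ι (volume : Measure ℂ) =
      (μHE[2] : Measure E3).restrict (Set.range ι) := by
    have h1 := Isometry.map_euclideanHausdorffMeasure (d := 2) ι.isometry
    rw [hvol] at h1
    exact h1
  have hHr : (H : Set E3) = Set.range ι := hH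
  have hset : {c : ℂ | c.re • a + c.im • b ∈ K} = ι ⁻¹' K := rfl
  rw [hset, hHr]
  have hres : (μHE[2] : Measure E3).restrict (K ∩ Set.range ι) =
      Measure.map ι ((volume : Measure ℂ).restrict (ι ⁻¹' K)) := by
    rw [← Measure.restrict_restrict hK, ← hmap, hιe.restrict_map]
  have hmass : (μHE[2] : Measure E3) (K ∩ Set.range ι) = volume (ι ⁻¹' K) := by
    have h1 := congrArg (fun ν : Measure E3 => ν Set.univ) hres
    simp only at h1
    rw [Measure.restrict_apply_univ, hιe.map_apply, Set.preimage_univ,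
      Measure.restrict_apply_univ] at h1
    exact h1
  have hbd : Bornology.IsBounded (ι ⁻¹' K) := by
    rw [isBounded_iff_forall_norm_le] at hb ⊢
    obtain ⟨C, hC⟩ := hb
    exact ⟨C, fun x hx => by rw [← hιn x]; exact hC _ hx⟩
  have hfin : volume (ι ⁻¹' K) < ⊤ := hbd.measure_lt_top
  have hpos : 0 < volume (ι ⁻¹' K) := by
    have h1 : (ι ⁻¹' (interior K)) ⊆ ι ⁻¹' K := Set.preimage_mono interior_subset
    have h2 : IsOpen (ι ⁻¹' (interior K)) := isOpen_interior.preimage ι.continuous
    have h3 : (ι ⁻¹' (interior K)).Nonempty := ⟨0, by simpa using hint⟩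
    exact lt_of_lt_of_le (h2.measure_pos volume h3) (measure_mono h1)
  rw [setAverage_eq, hres, hιe.integral_map]
  have hreal : ((μHE[2] : Measure E3).real (K ∩ Set.range ι)) ≠ 0 := by
    rw [Measure.real, hmass]
    exact (ENNReal.toReal_pos hpos.ne' hfin.ne).ne'
  have hintg : IntegrableOn (fun c : ℂ => c) (ι ⁻¹' K) volume := by
    obtain ⟨C, hC⟩ := isBounded_iff_forall_norm_le.mp hbd
    apply Measure.integrableOn_of_bounded (M := C) hfin.ne
    · exact measurable_id.aestronglyMeasurable
    · apply (ae_restrict_iff' (hιe.measurable hK)).mpr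
      exact Filter.Eventually.of_forall (fun x hx => hC x hx)
  have h1 : ∫ c in ι ⁻¹' K, ι c = ι (∫ c in ι ⁻¹' K, c) :=
    ι.toContinuousLinearMap.integral_comp_comm hintg
  have h2 : ∫ c in ι ⁻¹' K, c.re = (∫ c in ι ⁻¹' K, c).re :=
    Complex.reCLM.integral_comp_comm hintg
  have h3 : ∫ c in ι ⁻¹' K, c.im = (∫ c in ι ⁻¹' K, c).im :=
    Complex.imCLM.integral_comp_comm hintg
  rw [h1, h2, h3, smul_eq_zero_iff_right (inv_ne_zero hreal)]
  constructor
  · intro h4
    have h5 : (∫ c in ι ⁻¹' K, c) = 0 := by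
      rw [← norm_eq_zero, ← hιn]
      exact norm_eq_zero.mpr h4
    rw [h5]
    simp
  · rintro ⟨h4, h5⟩
    have h6 : (∫ c in ι ⁻¹' K, c) = 0 := Complex.ext h4 h5
    rw [h6, map_zero]

end Loewner
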