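import Pool.Agent.Helper98.Loew.Defs

open MeasureTheory Real Set Module
open scoped RealInnerProductSpace

namespace Loewner



lemma vec0 (x y z : ℝ) : vec x y z 0 = x := rfl
lemma vec1 (x y z : ℝ) : vec x y z 1 = y := rfl
lemma vec2 (x y z : ℝ) : vec x y z 2 = z := rfl

lemma ext3 {x y : E3} (h0 : x 0 = y 0) (h1 : x 1 = y 1) (h2 : x 2 = y 2) : x = y := by
  ext i
  fin_cases i <;> assumption

lemma li (κ σ z s : ℝ) (h1 : κ ^ 2 + σ ^ 2 = 1) (h2 : z ^ 2 + s ^ 2 = 1) :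
    LinearIndependent ℝ ![vec (-σ) κ 0, vec (z * κ) (z * σ) (-s)] := by
  rw [LinearIndependent.pair_iff]
  intro u t h
  have e0 := congrArg (fun v : E3 => v 0) h
  have e1 := congrArg (fun v : E3 => v 1) h
  have e2 := congrArg (fun v : E3 => v 2) h
  simp only [PiLp.add_apply, PiLp.smul_apply, smul_eq_mul, vec0, vec1, vec2, PiLp.zero_apply] at e0 e1 e2
  have hu : u = 0 := by
    linear_combination (-σ) * e0 + κ * e1 - u * h1
  subst hu
  have ht : t ^ 2 = 0 := by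
    linear_combination (t * z * κ) * e0 + (t * z * σ) * e1 - (t * s) * e2 - t ^ 2 * h2 - t ^ 2 * z ^ 2 * h1
  exact ⟨rfl, by simpa using ht⟩

lemma finrank_sp (κ σ z s : ℝ) (h1 : κ ^ 2 + σ ^ 2 = 1) (h2 : z ^ 2 + s ^ 2 = 1) :
    finrank ℝ (Submodule.span ℝ {vec (-σ) κ 0, vec (z * κ) (z * σ) (-s)}) = 2 := by
  have := finrank_span_eq_card (li κ σ z s h1 h2)
  rw [Matrix.range_cons, Matrix.range_cons, Matrix.range_empty, Set.union_empty,
    Set.singleton_union] at this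
  simpa using this

lemma span_set (κ σ z s : ℝ) :
    ((Submodule.span ℝ {vec (-σ) κ 0, vec (z * κ) (z * σ) (-s)} : Submodule ℝ E3) : Set E3) =
      Set.range (fun c : ℂ => c.re • vec (-σ) κ 0 + c.im • vec (z * κ) (z * σ) (-s)) := by
  ext x
  simp only [SetLike.mem_coe, Submodule.mem_span_pair, Set.mem_range]
  constructor
  · rintro ⟨a, b, rfl⟩
    exact ⟨⟨a, b⟩, rfl⟩
  · rintro ⟨c, rfl⟩
    exact ⟨c.re, c.im, rfl⟩

/-- every plane through `0` is spanned by a horizontal unit vector and an orthogonal one -/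
theorem plane_param (H : AffineSubspace ℝ E3) (hd : finrank ℝ H.direction = 2) (h0 : (0 : E3) ∈ H) :
    ∃ κ σ z s : ℝ, κ ^ 2 + σ ^ 2 = 1 ∧ z ^ 2 + s ^ 2 = 1 ∧ 0 ≤ s ∧
      (H : Set E3) = Set.range
        (fun c : ℂ => c.re • vec (-σ) κ 0 + c.im • vec (z * κ) (z * σ) (-s)) := by
  have hH : (H : Set E3) = (H.direction : Set E3) := by
    ext x
    constructor
    · intro hx
      have := AffineSubspace.vsub_mem_direction hx h0
      simpa using this
    · intro hx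
      have := AffineSubspace.vadd_mem_of_mem_direction hx h0
      simpa using this
  rw [hH]
  generalize H.direction = P at hd
  -- a horizontal vector
  have key : ∀ f : E3 →ₗ[ℝ] ℝ, ∃ a ∈ P, a ≠ 0 ∧ f a = 0 := by
    intro f
    have hk : LinearMap.ker (f.comp P.subtype) ≠ ⊥ := by
      apply LinearMap.ker_ne_bot_of_finrank_lt
      rw [hd]; simp
    obtain ⟨x, hx, hx0⟩ := (Submodule.ne_bot_iff _).1 hk
    refine ⟨x, x.2, ?_, ?_⟩
    · intro h; exact hx0 (Subtype.ext h)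
    · simpa using hx
  let pr : Fin 3 → E3 →ₗ[ℝ] ℝ := fun i => (EuclideanSpace.proj i : E3 →L[ℝ] ℝ).toLinearMap
  have hpr : ∀ i x, pr i x = x i := fun i x => rfl
  obtain ⟨a, haP, ha0, ha2⟩ := key (pr 2)
  rw [hpr] at ha2
  have hr : 0 < a 0 ^ 2 + a 1 ^ 2 := by
    by_contra hcon
    have e0 : a 0 = 0 := by nlinarith [sq_nonneg (a 0), sq_nonneg (a 1)]
    have e1 : a 1 = 0 := by nlinarith [sq_nonneg (a 0), sq_nonneg (a 1)]
    exact ha0 (ext3 e0 e1 ha2)
  set r := √(a 0 ^ 2 + a 1 ^ 2) with hrdef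
  have hr0 : 0 < r := Real.sqrt_pos.2 hr
  have hr2 : r ^ 2 = a 0 ^ 2 + a 1 ^ 2 := Real.sq_sqrt hr.le
  set κ := a 1 / r with hκ
  set σ := -(a 0) / r with hσ
  have h1 : κ ^ 2 + σ ^ 2 = 1 := by
    rw [hκ, hσ, div_pow, div_pow, ← add_div, div_eq_one_iff_eq (by positivity), hr2]; ring
  have haP' : vec (-σ) κ 0 ∈ P := by
    have : vec (-σ) κ 0 = r⁻¹ • a := by
      apply ext3
      · rw [vec0, PiLp.smul_apply, smul_eq_mul, hσ]; field_simp
      · rw [vec1, PiLp.smul_apply, smul_eq_mul, hκ]; field_simp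
      · rw [vec2, PiLp.smul_apply, ha2]; simp
    rw [this]
    exact P.smul_mem _ haP
  obtain ⟨b, hbP, hb0, hb2⟩ := key ((-σ) • pr 0 + κ • pr 1)
  simp only [LinearMap.add_apply, LinearMap.smul_apply, hpr, smul_eq_mul] at hb2
  set z0 := κ * b 0 + σ * b 1 with hz0
  have eb0 : b 0 = z0 * κ := by
    rw [hz0]; linear_combination (-σ) * hb2 - b 0 * h1
  have eb1 : b 1 = z0 * σ := by
    rw [hz0]; linear_combination κ * hb2 - b 1 * h1
  have hR : 0 < z0 ^ 2 + b 2 ^ 2 := by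
    by_contra hcon
    have e0 : z0 = 0 := by nlinarith [sq_nonneg z0, sq_nonneg (b 2)]
    have e1 : b 2 = 0 := by nlinarith [sq_nonneg z0, sq_nonneg (b 2)]
    apply hb0
    apply ext3
    · rw [eb0, e0]; simp
    · rw [eb1, e0]; simp
    · rw [e1]; simp
  set R := √(z0 ^ 2 + b 2 ^ 2) with hRdef
  have hR0 : 0 < R := Real.sqrt_pos.2 hR
  have hR2 : R ^ 2 = z0 ^ 2 + b 2 ^ 2 := Real.sq_sqrt hR.le
  obtain ⟨e, he, hes⟩ : ∃ e : ℝ, e ^ 2 = 1 ∧ 0 ≤ -(e * b 2 / R) := by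
    rcases le_total 0 (b 2) with h | h
    · refine ⟨-1, by norm_num, ?_⟩
      have : 0 ≤ b 2 / R := by positivity
      have e1 : -(-1 * b 2 / R) = b 2 / R := by ring
      rw [e1]; exact this
    · refine ⟨1, by norm_num, ?_⟩
      have : 0 ≤ (-b 2) / R := div_nonneg (by linarith) hR0.le
      have e1 : -(1 * b 2 / R) = (-b 2) / R := by ring
      rw [e1]; exact this
  refine ⟨κ, σ, e * z0 / R, -(e * b 2 / R), h1, ?_, hes, ?_⟩
  · have : (e * z0 / R) ^ 2 + (-(e * b 2 / R)) ^ 2 = e ^ 2 * (z0 ^ 2 + b 2 ^ 2) / R ^ 2 := by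
      ring
    rw [this, he, hR2, one_mul, div_self hR.ne']
  · have h2 : (e * z0 / R) ^ 2 + (-(e * b 2 / R)) ^ 2 = 1 := by
      have : (e * z0 / R) ^ 2 + (-(e * b 2 / R)) ^ 2 = e ^ 2 * (z0 ^ 2 + b 2 ^ 2) / R ^ 2 := by
        ring
      rw [this, he, hR2, one_mul, div_self hR.ne']
    rw [← span_set]
    congr 1
    symm
    apply Submodule.eq_of_le_of_finrank_eq
    · rw [Submodule.span_le]
      intro x hx
      simp only [Set.mem_insert_iff, Set.mem_singleton_iff] at hx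
      rcases hx with rfl | rfl
      · exact haP'
      · have : vec (e * z0 / R * κ) (e * z0 / R * σ) (- -(e * b 2 / R)) = (e / R) • b := by
          apply ext3
          · rw [vec0, PiLp.smul_apply, smul_eq_mul, eb0]; ring
          · rw [vec1, PiLp.smul_apply, smul_eq_mul, eb1]; ring
          · rw [vec2, PiLp.smul_apply, smul_eq_mul]; ring
        rw [this]
        exact P.smul_mem _ hbP
    · rw [finrank_sp κ σ _ _ h1 h2, hd]

/-- conversely such a span is a plane through `0` -/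
theorem plane_exists (κ σ z s : ℝ) (h1 : κ ^ 2 + σ ^ 2 = 1) (h2 : z ^ 2 + s ^ 2 = 1) :
    ∃ H : AffineSubspace ℝ E3, finrank ℝ H.direction = 2 ∧ (0 : E3) ∈ H ∧
      (H : Set E3) = Set.range
        (fun c : ℂ => c.re • vec (-σ) κ 0 + c.im • vec (z * κ) (z * σ) (-s)) := by
  refine ⟨(Submodule.span ℝ {vec (-σ) κ 0, vec (z * κ) (z * σ) (-s)}).toAffineSubspace, ?_, ?_, ?_⟩
  · rw [Submodule.toAffineSubspace_direction]
    exact finrank_sp κ σ z s h1 h2
  · exact Submodule.zero_mem _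
  · rw [← span_set]
    rfl

end Loewner
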