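import Pool.Agent.Helper98.Loew.Defs

open MeasureTheory Real Set Metric

namespace Loewner



/-- one-dimensional Gaussian moments -/
theorem gauss_half (m : ℕ) :
    ∫ x in Ioi (0 : ℝ), x ^ m * rexp (-x ^ 2) = (1 / 2) * Real.Gamma (((m : ℝ) + 1) / 2) := by
  have h := integral_rpow_mul_exp_neg_rpow (p := 2) (q := (m : ℝ)) (by norm_num)
    (by have : (0 : ℝ) ≤ m := Nat.cast_nonneg m; linarith)
  rw [← h]
  apply setIntegral_congr_fun measurableSet_Ioi
  intro x _
  show x ^ m * rexp (-x ^ 2) = x ^ (m : ℝ) * rexp (-x ^ (2 : ℝ))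
  rw [Real.rpow_natCast, Real.rpow_two]

theorem gauss_full (k : ℕ) :
    ∫ x : ℝ, x ^ (2 * k) * rexp (-x ^ 2) = Real.Gamma ((k : ℝ) + 1 / 2) := by
  have h2 : ∫ x : ℝ, x ^ (2 * k) * rexp (-x ^ 2) =
      2 * ∫ x in Ioi (0 : ℝ), x ^ (2 * k) * rexp (-x ^ 2) := by
    have h3 := integral_comp_abs (f := fun y : ℝ => y ^ (2 * k) * rexp (-y ^ 2))
    have h4 : ∫ x : ℝ, x ^ (2 * k) * rexp (-x ^ 2) =
        ∫ x : ℝ, |x| ^ (2 * k) * rexp (-|x| ^ 2) := by
      apply integral_congr_ae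
      apply Filter.Eventually.of_forall
      intro x
      show x ^ (2 * k) * rexp (-x ^ 2) = |x| ^ (2 * k) * rexp (-|x| ^ 2)
      rw [pow_mul, pow_mul, sq_abs]
    rw [h4]
    exact h3
  rw [h2, gauss_half]
  rw [show (((2 * k : ℕ) : ℝ) + 1) / 2 = (k : ℝ) + 1 / 2 by push_cast; ring]
  ring

/-- polar coordinates -/
theorem polar_int (k : ℕ) :
    ∫ x : E3, (x 2) ^ (2 * k) * rexp (-‖x‖ ^ 2) =
      (∫ θ : sphere (0 : E3) 1, ((θ : E3) 2) ^ (2 * k) ∂((volume : Measure E3).toSphere)) *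
        ∫ r in Ioi (0 : ℝ), r ^ (2 * k + 2) * rexp (-r ^ 2) := by
  have hdim : Module.finrank ℝ E3 = 3 := by simp
  calc ∫ x : E3, (x 2) ^ (2 * k) * rexp (-‖x‖ ^ 2)
      = ∫ x : ({(0 : E3)}ᶜ : Set E3), ((x : E3) 2) ^ (2 * k) * rexp (-‖(x : E3)‖ ^ 2)
          ∂((volume : Measure E3).comap (↑)) := by
        rw [integral_subtype_comap (measurableSet_singleton _).compl
          fun x : E3 => (x 2) ^ (2 * k) * rexp (-‖x‖ ^ 2), restrict_compl_singleton]
    _ = ∫ p : sphere (0 : E3) 1 × Ioi (0 : ℝ), (((p.1 : E3) 2) ^ (2 * k)) *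
          ((p.2 : ℝ) ^ (2 * k) * rexp (-(p.2 : ℝ) ^ 2))
          ∂((volume : Measure E3).toSphere.prod (Measure.volumeIoiPow (Module.finrank ℝ E3 - 1))) := by
        rw [← (volume : Measure E3).measurePreserving_homeomorphUnitSphereProd.integral_comp
          (Homeomorph.measurableEmbedding _)]
        apply integral_congr_ae
        apply Filter.Eventually.of_forall
        intro x
        have hx : 0 < ‖(x : E3)‖ := norm_pos_iff.2 (fun h => x.2 h)
        show ((x : E3) 2) ^ (2 * k) * rexp (-‖(x : E3)‖ ^ 2) =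
          ((((homeomorphUnitSphereProd E3 x).1 : E3) 2) ^ (2 * k)) *
          (((homeomorphUnitSphereProd E3 x).2 : ℝ) ^ (2 * k) *
            rexp (-((homeomorphUnitSphereProd E3 x).2 : ℝ) ^ 2))
        rw [homeomorphUnitSphereProd_apply_fst_coe, homeomorphUnitSphereProd_apply_snd_coe,
          ← mul_assoc, ← mul_pow]
        congr 2
        rw [PiLp.smul_apply, smul_eq_mul, mul_comm, ← mul_assoc, mul_inv_cancel₀ hx.ne', one_mul]
    _ = (∫ θ : sphere (0 : E3) 1, ((θ : E3) 2) ^ (2 * k) ∂((volume : Measure E3).toSphere)) *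
          ∫ r : Ioi (0 : ℝ), ((r : ℝ) ^ (2 * k) * rexp (-(r : ℝ) ^ 2))
            ∂(Measure.volumeIoiPow (Module.finrank ℝ E3 - 1)) :=
        integral_prod_mul (fun θ : sphere (0 : E3) 1 => ((θ : E3) 2) ^ (2 * k))
          (fun r : Ioi (0 : ℝ) => (r : ℝ) ^ (2 * k) * rexp (-(r : ℝ) ^ 2))
    _ = _ := by
        congr 1
        rw [hdim]
        simp only [Measure.volumeIoiPow, ENNReal.ofReal]
        rw [integral_withDensity_eq_integral_smul,
          integral_subtype_comap measurableSet_Ioi fun a : ℝ =>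
            Real.toNNReal (a ^ (3 - 1)) • (a ^ (2 * k) * rexp (-a ^ 2)),
          setIntegral_congr_fun measurableSet_Ioi fun x hx => ?_]
        · rw [NNReal.smul_def, Real.coe_toNNReal _ (pow_nonneg (le_of_lt hx) _), smul_eq_mul,
            ← mul_assoc, ← pow_add]
          congr 2
          omega
        · exact (measurable_subtype_coe.pow_const _).real_toNNReal

/-- product structure -/
theorem prod_int (k : ℕ) :
    ∫ x : E3, (x 2) ^ (2 * k) * rexp (-‖x‖ ^ 2) = Real.Gamma ((k : ℝ) + 1 / 2) * π := by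
  have h1 : ∫ x : E3, (x 2) ^ (2 * k) * rexp (-‖x‖ ^ 2) =
      ∫ y : Fin 3 → ℝ, ∏ i, (if i = 2 then (y i) ^ (2 * k) * rexp (-(y i) ^ 2)
        else rexp (-(y i) ^ 2)) := by
    rw [← (EuclideanSpace.volume_preserving_symm_measurableEquiv_toLp (Fin 3)).integral_comp'
      (fun y : Fin 3 → ℝ => ∏ i, (if i = 2 then (y i) ^ (2 * k) * rexp (-(y i) ^ 2)
        else rexp (-(y i) ^ 2)))]
    apply integral_congr_ae
    apply Filter.Eventually.of_forall
    intro x
    show (x 2) ^ (2 * k) * rexp (-‖x‖ ^ 2) = ∏ i : Fin 3, (if i = 2 then (x i) ^ (2 * k) *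
      rexp (-(x i) ^ 2) else rexp (-(x i) ^ 2))
    rw [Fin.prod_univ_three, if_neg (by decide), if_neg (by decide), if_pos rfl,
      EuclideanSpace.real_norm_sq_eq, Fin.sum_univ_three]
    have : -((x 0) ^ 2 + (x 1) ^ 2 + (x 2) ^ 2) = -(x 0) ^ 2 + -(x 1) ^ 2 + -(x 2) ^ 2 := by ring
    rw [this, Real.exp_add, Real.exp_add]
    ring
  rw [h1, integral_fintype_prod_volume_eq_prod (fun (i : Fin 3) (t : ℝ) =>
    if i = 2 then t ^ (2 * k) * rexp (-t ^ 2) else rexp (-t ^ 2)), Fin.prod_univ_three]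
  have hg : ∫ t : ℝ, rexp (-t ^ 2) = √π := by
    have := integral_gaussian 1
    simp only [neg_mul, one_mul, div_one] at this
    exact this
  have e0 : ∫ t : ℝ, (if (0 : Fin 3) = 2 then t ^ (2 * k) * rexp (-t ^ 2) else rexp (-t ^ 2)) =
      √π := by
    simp only [show ((0 : Fin 3) = 2) = False from by simp, if_false]
    exact hg
  have e1 : ∫ t : ℝ, (if (1 : Fin 3) = 2 then t ^ (2 * k) * rexp (-t ^ 2) else rexp (-t ^ 2)) =
      √π := by
    simp only [show ((1 : Fin 3) = 2) = False from by simp, if_false]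
    exact hg
  have e2 : ∫ t : ℝ, (if (2 : Fin 3) = 2 then t ^ (2 * k) * rexp (-t ^ 2) else rexp (-t ^ 2)) =
      Real.Gamma ((k : ℝ) + 1 / 2) := by
    simp only [if_true]
    exact gauss_full k
  rw [e0, e1, e2, Real.mul_self_sqrt Real.pi_pos.le]
  ring

/-- even moments of the last coordinate on the unit sphere -/
theorem sphere_moment (k : ℕ) :
    (∫ θ : sphere (0 : E3) 1, ((θ : E3) 2) ^ (2 * k) ∂((volume : Measure E3).toSphere))
      = 4 * π / (2 * k + 1) := by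
  have h1 := polar_int k
  rw [prod_int, gauss_half] at h1
  have h2 : (((2 * k + 2 : ℕ) : ℝ) + 1) / 2 = ((k : ℝ) + 1 / 2) + 1 := by
    push_cast; ring
  have hk : (0 : ℝ) ≤ k := Nat.cast_nonneg k
  have hk2 : (0 : ℝ) < (k : ℝ) + 1 / 2 := by linarith
  rw [h2, Real.Gamma_add_one hk2.ne'] at h1
  have hG : 0 < Real.Gamma ((k : ℝ) + 1 / 2) := Real.Gamma_pos_of_pos hk2
  obtain ⟨S, hS⟩ : ∃ S, S = ∫ θ : sphere (0 : E3) 1, ((θ : E3) 2) ^ (2 * k)
    ∂((volume : Measure E3).toSphere) := ⟨_, rfl⟩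
  rw [← hS] at h1 ⊢
  have h3 : π = S * (1 / 2 * ((k : ℝ) + 1 / 2)) := by
    apply mul_left_cancel₀ hG.ne'
    rw [h1]
    ring
  rw [h3, eq_div_iff (by linarith)]
  ring

end Loewner
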