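import Pool.Agent.Helper98.Loew.Defs

open MeasureTheory Real Set Metric

namespace Loewner


section aux
open scoped Pointwise

/-- the action on the sphere -/
noncomputable def sphMap (L : E3 ≃ₗᵢ[ℝ] E3) (θ : sphere (0 : E3) 1) : sphere (0 : E3) 1 :=
  ⟨L θ, by
    have h : ‖(θ : E3)‖ = 1 := by simp
    simp [h]⟩

lemma continuous_sphMap (L : E3 ≃ₗᵢ[ℝ] E3) : Continuous (sphMap L) :=
  Continuous.subtype_mk (L.continuous.comp continuous_subtype_val) _

lemma map_sphMap (L : E3 ≃ₗᵢ[ℝ] E3) :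
    ((volume : Measure E3).toSphere).map (sphMap L) = (volume : Measure E3).toSphere := by
  ext s hs
  have hs' : MeasurableSet (sphMap L ⁻¹' s) := (continuous_sphMap L).measurable hs
  rw [Measure.map_apply (continuous_sphMap L).measurable hs, Measure.toSphere_apply' _ hs,
    Measure.toSphere_apply' _ hs']
  congr 1
  have h1 : (Ioo (0 : ℝ) 1 • ((↑) '' (sphMap L ⁻¹' s) : Set E3)) =
      L ⁻¹' (Ioo (0 : ℝ) 1 • ((↑) '' s : Set E3)) := by
    ext x
    simp only [Set.mem_smul, Set.mem_image, Set.mem_preimage]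
    constructor
    · rintro ⟨r, hr, _, ⟨θ, hθ, rfl⟩, rfl⟩
      refine ⟨r, hr, _, ⟨sphMap L θ, hθ, rfl⟩, ?_⟩
      simp [sphMap]
    · rintro ⟨r, hr, _, ⟨θ, hθ, rfl⟩, h⟩
      have hn : ‖(θ : E3)‖ = 1 := by simp
      refine ⟨r, hr, _, ⟨⟨L.symm θ, by simp [hn]⟩, ?_, rfl⟩, ?_⟩
      · have : sphMap L ⟨L.symm θ, by simp [hn]⟩ = θ := by
          apply Subtype.ext
          simp [sphMap]
        rw [this]; exact hθ
      · apply L.injective
        rw [← h]
        simp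
  rw [h1]
  exact (L.measurePreserving).measure_preimage_equiv (f := L.toHomeomorph.toMeasurableEquiv) _

end aux

/-- invariance of the sphere measure under linear isometries -/
theorem sphere_integral_isometry (L : E3 ≃ₗᵢ[ℝ] E3) (g : E3 → ℝ) (hg : Continuous g) :
    (∫ θ : sphere (0 : E3) 1, g (L (θ : E3)) ∂((volume : Measure E3).toSphere))
      = ∫ θ : sphere (0 : E3) 1, g (θ : E3) ∂((volume : Measure E3).toSphere) := by
  have hc : Continuous (fun θ : sphere (0 : E3) 1 => g (θ : E3)) :=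
    hg.comp continuous_subtype_val
  conv_rhs => rw [← map_sphMap L]
  rw [integral_map (continuous_sphMap L).measurable.aemeasurable hc.aestronglyMeasurable]
  rfl

lemma sphere_integrable (g : E3 → ℝ) (hg : Continuous g) :
    Integrable (fun θ : sphere (0 : E3) 1 => g (θ : E3)) ((volume : Measure E3).toSphere) :=
  (hg.comp continuous_subtype_val).integrable_of_hasCompactSupport
    (HasCompactSupport.of_compactSpace _)

/-- the rotation about the last axis as a linear map -/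
noncomputable def rotL (a b : ℝ) : E3 →ₗ[ℝ] E3 where
  toFun x := !₂[a * x 0 - b * x 1, b * x 0 + a * x 1, x 2]
  map_add' x y := by
    ext i
    fin_cases i <;> simp <;> ring
  map_smul' c x := by
    ext i
    fin_cases i <;> simp <;> ring

noncomputable def rot (a b : ℝ) (h : a ^ 2 + b ^ 2 = 1) : E3 ≃ₗᵢ[ℝ] E3 :=
  LinearIsometry.toLinearIsometryEquiv ⟨rotL a b, by
    intro x
    rw [EuclideanSpace.norm_eq, EuclideanSpace.norm_eq]
    congr 1
    simp only [Fin.sum_univ_three, Real.norm_eq_abs, sq_abs]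
    simp only [rotL, LinearMap.coe_mk, AddHom.coe_mk]
    simp
    linear_combination (x.ofLp 0 ^ 2 + x.ofLp 1 ^ 2) * h⟩ rfl

lemma rot_apply (a b : ℝ) (h : a ^ 2 + b ^ 2 = 1) (x : E3) :
    rot a b h x = !₂[a * x 0 - b * x 1, b * x 0 + a * x 1, x 2] := rfl

lemma rot0 (a b : ℝ) (h : a ^ 2 + b ^ 2 = 1) (x : E3) : (rot a b h x) 0 = a * x 0 - b * x 1 := rfl
lemma rot1 (a b : ℝ) (h : a ^ 2 + b ^ 2 = 1) (x : E3) : (rot a b h x) 1 = b * x 0 + a * x 1 := rfl
lemma rot2 (a b : ℝ) (h : a ^ 2 + b ^ 2 = 1) (x : E3) : (rot a b h x) 2 = x 2 := rfl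

theorem sphere_zero3 (g : ℝ → ℝ) (hg : Continuous g) :
    (∫ θ : sphere (0 : E3) 1, g ((θ : E3) 2) * (((θ : E3) 0) ^ 3 - 3 * ((θ : E3) 0) * ((θ : E3) 1) ^ 2)
      ∂((volume : Measure E3).toSphere)) = 0 := by
  have h := sphere_integral_isometry (rot (-1) 0 (by norm_num))
    (fun x : E3 => g (x 2) * ((x 0) ^ 3 - 3 * (x 0) * (x 1) ^ 2)) (by fun_prop)
  simp only [rot0, rot1, rot2] at h
  have h2 : (∫ θ : sphere (0 : E3) 1, g ((θ : E3) 2) *
        ((-1 * (θ : E3) 0 - 0 * (θ : E3) 1) ^ 3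
          - 3 * (-1 * (θ : E3) 0 - 0 * (θ : E3) 1) * (0 * (θ : E3) 0 + -1 * (θ : E3) 1) ^ 2)
      ∂((volume : Measure E3).toSphere)) =
      - ∫ θ : sphere (0 : E3) 1, g ((θ : E3) 2) *
        (((θ : E3) 0) ^ 3 - 3 * ((θ : E3) 0) * ((θ : E3) 1) ^ 2)
      ∂((volume : Measure E3).toSphere) := by
    rw [← integral_neg]
    congr 1
    funext θ
    ring
  rw [h2] at h
  linarith

theorem sphere_zero6 (g : ℝ → ℝ) (hg : Continuous g) :
    (∫ θ : sphere (0 : E3) 1, g ((θ : E3) 2) * (((θ : E3) 0) ^ 6 - 15 * ((θ : E3) 0) ^ 4 * ((θ : E3) 1) ^ 2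
        + 15 * ((θ : E3) 0) ^ 2 * ((θ : E3) 1) ^ 4 - ((θ : E3) 1) ^ 6)
      ∂((volume : Measure E3).toSphere)) = 0 := by
  have h := sphere_integral_isometry (rot 0 1 (by norm_num))
    (fun x : E3 => g (x 2) * ((x 0) ^ 6 - 15 * (x 0) ^ 4 * (x 1) ^ 2
        + 15 * (x 0) ^ 2 * (x 1) ^ 4 - (x 1) ^ 6)) (by fun_prop)
  simp only [rot0, rot1, rot2] at h
  have h2 : (∫ θ : sphere (0 : E3) 1, g ((θ : E3) 2) *
        ((0 * (θ : E3) 0 - 1 * (θ : E3) 1) ^ 6
          - 15 * (0 * (θ : E3) 0 - 1 * (θ : E3) 1) ^ 4 * (1 * (θ : E3) 0 + 0 * (θ : E3) 1) ^ 2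
          + 15 * (0 * (θ : E3) 0 - 1 * (θ : E3) 1) ^ 2 * (1 * (θ : E3) 0 + 0 * (θ : E3) 1) ^ 4
          - (1 * (θ : E3) 0 + 0 * (θ : E3) 1) ^ 6)
      ∂((volume : Measure E3).toSphere)) =
      - ∫ θ : sphere (0 : E3) 1, g ((θ : E3) 2) *
        (((θ : E3) 0) ^ 6 - 15 * ((θ : E3) 0) ^ 4 * ((θ : E3) 1) ^ 2
        + 15 * ((θ : E3) 0) ^ 2 * ((θ : E3) 1) ^ 4 - ((θ : E3) 1) ^ 6)
      ∂((volume : Measure E3).toSphere) := by
    rw [← integral_neg]
    congr 1
    funext θ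
    ring
  rw [h2] at h
  linarith

/-- a function on the sphere that is invariant under the rotation by 120 degrees about the
last axis has vanishing horizontal first moments -/
theorem sphere_horizontal (g : E3 → ℝ) (hg : Continuous g)
    (hsym : ∀ x y z : ℝ, g (!₂[-x / 2 - √3 / 2 * y, √3 / 2 * x - y / 2, z]) = g (!₂[x, y, z])) :
    (∫ θ : sphere (0 : E3) 1, g (θ : E3) * (θ : E3) 0 ∂((volume : Measure E3).toSphere)) = 0 ∧
    (∫ θ : sphere (0 : E3) 1, g (θ : E3) * (θ : E3) 1 ∂((volume : Measure E3).toSphere)) = 0 := by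
  have h3 : √3 ^ 2 = 3 := Real.sq_sqrt (by norm_num)
  have hr : (-1 / 2 : ℝ) ^ 2 + (√3 / 2) ^ 2 = 1 := by
    rw [div_pow (√3), h3]; norm_num
  have hinv : ∀ x : E3, g (rot (-1 / 2) (√3 / 2) hr x) = g x := by
    intro x
    have h1 := hsym (x 0) (x 1) (x 2)
    have e1 : (!₂[x 0, x 1, x 2] : E3) = x := by
      ext i; fin_cases i <;> rfl
    have e2 : rot (-1 / 2) (√3 / 2) hr x =
        !₂[-(x 0) / 2 - √3 / 2 * (x 1), √3 / 2 * (x 0) - (x 1) / 2, x 2] := by
      rw [rot_apply]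
      congr 1
      ext i
      fin_cases i
      · simp; ring
      · simp; ring
      · simp
    rw [e2, h1, e1]
  set m0 := ∫ θ : sphere (0 : E3) 1, g (θ : E3) * (θ : E3) 0 ∂((volume : Measure E3).toSphere)
    with hm0
  set m1 := ∫ θ : sphere (0 : E3) 1, g (θ : E3) * (θ : E3) 1 ∂((volume : Measure E3).toSphere)
    with hm1
  have i0 := sphere_integrable (fun x => g x * x 0) (by fun_prop)
  have i1 := sphere_integrable (fun x => g x * x 1) (by fun_prop)
  have hA := sphere_integral_isometry (rot (-1 / 2) (√3 / 2) hr) (fun x : E3 => g x * x 0)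
    (by fun_prop)
  have hB := sphere_integral_isometry (rot (-1 / 2) (√3 / 2) hr) (fun x : E3 => g x * x 1)
    (by fun_prop)
  simp only [hinv, rot0, rot1] at hA hB
  have hA2 : (∫ θ : sphere (0 : E3) 1, g (θ : E3) * (-1 / 2 * (θ : E3) 0 - √3 / 2 * (θ : E3) 1)
      ∂((volume : Measure E3).toSphere)) = -1 / 2 * m0 - √3 / 2 * m1 := by
    rw [hm0, hm1, ← integral_const_mul, ← integral_const_mul, ← integral_sub (i0.const_mul _)
      (i1.const_mul _)]
    congr 1
    funext θ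
    ring
  have hB2 : (∫ θ : sphere (0 : E3) 1, g (θ : E3) * (√3 / 2 * (θ : E3) 0 + -1 / 2 * (θ : E3) 1)
      ∂((volume : Measure E3).toSphere)) = √3 / 2 * m0 + -1 / 2 * m1 := by
    rw [hm0, hm1, ← integral_const_mul, ← integral_const_mul, ← integral_add (i0.const_mul _)
      (i1.const_mul _)]
    congr 1
    funext θ
    ring
  rw [hA2] at hA
  rw [hB2] at hB
  -- m0 = - (√3/3) m1 ...
  have k0 : m0 = -(√3 / 3) * m1 := by linear_combination (-2 / 3) * hA
  have k1 : m1 = (√3 / 3) * m0 := by linear_combination (-2 / 3) * hB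
  have k2 : m0 = 0 := by
    rw [k1] at k0
    have : m0 = -(√3 ^ 2 / 9) * m0 := by linear_combination k0
    rw [h3] at this
    linarith
  exact ⟨k2, by rw [k1, k2, mul_zero]⟩

end Loewner
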