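import Pool.Agent.Helper98.Loew.Circ2
import Pool.Agent.Helper98.Loew.Conv
import Pool.Agent.Helper98.Loew.J1
import Pool.Agent.Helper98.Loew.J2
import Pool.Agent.Helper98.Loew.J3
import Pool.Agent.Helper98.Loew.J4
import Pool.Agent.Helper98.Loew.J5
import Pool.Agent.Helper98.Loew.J6

open MeasureTheory Real Set Metric Module
open scoped RealInnerProductSpace

namespace Loewner

noncomputable section

/-- the perturbing function on space -/
def Wf (τ : ℝ) (x : E3) : ℝ := wtau τ (x 0) (x 1) (x 2)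
/-- cubed radial function -/
def hf (ε τ : ℝ) (x : E3) : ℝ := 1 + ε * Wf τ x

theorem Wf_contDiff (τ : ℝ) : ContDiff ℝ 2 (Wf τ) := by
  unfold Wf wtau wpol q0 q1 q2
  fun_prop

theorem Wf_eq (τ : ℝ) (x : E3) : Wf τ x = Wf 0 x + τ * x 2 := by
  unfold Wf wtau; ring

theorem Wf_cont (τ : ℝ) : Continuous (Wf τ) := (Wf_contDiff τ).continuous

theorem hf_cont (ε τ : ℝ) : Continuous (hf ε τ) := by
  have := Wf_cont τ
  unfold hf; fun_prop

theorem coord_le (x : E3) (i : Fin 3) : |x i| ≤ ‖x‖ := by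
  have := PiLp.norm_apply_le x i
  simpa using this

theorem pow43 (h : ℝ) (hh : 0 < h) :
    |h ^ (4 / 3 : ℝ) - 1 - 4 / 3 * (h - 1)| ≤ (h - 1) ^ 2 := by
  set ρ := h ^ (1 / 3 : ℝ) with hρ
  have hpos : 0 < ρ := Real.rpow_pos_of_pos hh _
  have h3 : ρ ^ 3 = h := by
    rw [hρ, ← Real.rpow_natCast, ← Real.rpow_mul hh.le]; norm_num
  have h4 : h ^ (4 / 3 : ℝ) = ρ ^ 4 := by
    rw [hρ, ← Real.rpow_natCast, ← Real.rpow_mul hh.le]; norm_num
  rw [h4, ← h3]
  have e : ρ ^ 4 - 1 - 4 / 3 * (ρ ^ 3 - 1) = (ρ - 1) ^ 2 * ((3 * ρ ^ 2 + 2 * ρ + 1) / 3) := by ring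
  rw [e, abs_of_nonneg (by positivity)]
  have e2 : (ρ ^ 3 - 1) ^ 2 = (ρ - 1) ^ 2 * (ρ ^ 2 + ρ + 1) ^ 2 := by ring
  rw [e2]
  apply mul_le_mul_of_nonneg_left _ (sq_nonneg _)
  nlinarith [pow_pos hpos 2, pow_pos hpos 3, pow_pos hpos 4]

/-- the sphere measure -/
abbrev sph : Measure (sphere (0 : E3) 1) := (volume : Measure E3).toSphere

theorem sph_univ : sph.real univ = 4 * π := by
  have h := sphere_moment 0
  simp only [mul_zero, pow_zero, integral_const, smul_eq_mul, mul_one, Nat.cast_zero, zero_add,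
    div_one] at h
  exact h

theorem sph_first : (∫ θ : sphere (0 : E3) 1, (θ : E3) 2 ∂sph) = 0 := by
  have h := sphere_integral_isometry (LinearIsometryEquiv.neg ℝ) (fun x : E3 => x 2) (by fun_prop)
  simp only [LinearIsometryEquiv.coe_neg, PiLp.neg_apply] at h
  rw [integral_neg] at h
  linarith

theorem sph_step (c : ℝ) (k : ℕ) (r : E3 → ℝ) (hr : Continuous r) :
    (∫ θ : sphere (0 : E3) 1, (c * ((θ : E3) 2) ^ (2 * k) + r θ) ∂sph)
      = c * (4 * π / (2 * k + 1)) + ∫ θ : sphere (0 : E3) 1, r θ ∂sph := by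
  rw [integral_add (sphere_integrable (fun x => c * (x 2) ^ (2 * k)) (by fun_prop))
    (sphere_integrable r hr), integral_const_mul, sphere_moment]

theorem sph_W (τ : ℝ) : (∫ θ : sphere (0 : E3) 1, Wf τ θ * (θ : E3) 2 ∂sph) = τ * (4 * π / 3) := by
  have hq1 := q1_cont
  have hq2 := q2_cont
  let ra : E3 → ℝ := fun x => (q1 (x 2) * x 2) * ((x 0) ^ 3 - 3 * (x 0) * (x 1) ^ 2)
  let rb : E3 → ℝ := fun x => (q2 (x 2) * x 2) * ((x 0) ^ 6 - 15 * (x 0) ^ 4 * (x 1) ^ 2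
        + 15 * (x 0) ^ 2 * (x 1) ^ 4 - (x 1) ^ 6)
  have hra : Continuous ra := by fun_prop
  have hrb : Continuous rb := by fun_prop
  let r7 : E3 → ℝ := fun x => ra x + rb x
  let r6 : E3 → ℝ := fun x => 11190 * (x 2) ^ (2 * 7) + r7 x
  let r5 : E3 → ℝ := fun x => (-29822) * (x 2) ^ (2 * 6) + r6 x
  let r4 : E3 → ℝ := fun x => 28578 * (x 2) ^ (2 * 5) + r5 x
  let r3 : E3 → ℝ := fun x => (-13086) * (x 2) ^ (2 * 4) + r4 x
  let r2 : E3 → ℝ := fun x => 4396 * (x 2) ^ (2 * 3) + r3 x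
  let r1 : E3 → ℝ := fun x => (-1545) * (x 2) ^ (2 * 2) + r2 x
  have hr7 : Continuous r7 := by fun_prop
  have hr6 : Continuous r6 := by fun_prop
  have hr5 : Continuous r5 := by fun_prop
  have hr4 : Continuous r4 := by fun_prop
  have hr3 : Continuous r3 := by fun_prop
  have hr2 : Continuous r2 := by fun_prop
  have hr1 : Continuous r1 := by fun_prop
  have e : ∀ θ : sphere (0 : E3) 1, Wf τ θ * (θ : E3) 2 =
      (255 + τ) * ((θ : E3) 2) ^ (2 * 1) + r1 θ := by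
    intro θ
    simp only [r1, r2, r3, r4, r5, r6, r7, ra, rb]
    unfold Wf wtau wpol q0
    ring
  simp_rw [e]
  have s7 : (∫ θ : sphere (0 : E3) 1, r7 θ ∂sph) = 0 := by
    have h1 : (∫ θ : sphere (0 : E3) 1, ra θ ∂sph) = 0 := sphere_zero3 (fun z => q1 z * z) (by fun_prop)
    have h2 : (∫ θ : sphere (0 : E3) 1, rb θ ∂sph) = 0 := sphere_zero6 (fun z => q2 z * z) (by fun_prop)
    have : (∫ θ : sphere (0 : E3) 1, r7 θ ∂sph) = (∫ θ : sphere (0 : E3) 1, ra θ ∂sph) +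
      (∫ θ : sphere (0 : E3) 1, rb θ ∂sph) := integral_add (sphere_integrable ra hra) (sphere_integrable rb hrb)
    rw [this, h1, h2, add_zero]
  have s6 := sph_step 11190 7 r7 hr7
  have s5 := sph_step (-29822) 6 r6 hr6
  have s4 := sph_step 28578 5 r5 hr5
  have s3 := sph_step (-13086) 4 r4 hr4
  have s2 := sph_step 4396 3 r3 hr3
  have s1 := sph_step (-1545) 2 r2 hr2
  have s0 := sph_step (255 + τ) 1 r1 hr1
  have u6 : (∫ θ : sphere (0 : E3) 1, r6 θ ∂sph) = _ := s6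
  have u5 : (∫ θ : sphere (0 : E3) 1, r5 θ ∂sph) = _ := s5
  have u4 : (∫ θ : sphere (0 : E3) 1, r4 θ ∂sph) = _ := s4
  have u3 : (∫ θ : sphere (0 : E3) 1, r3 θ ∂sph) = _ := s3
  have u2 : (∫ θ : sphere (0 : E3) 1, r2 θ ∂sph) = _ := s2
  have u1 : (∫ θ : sphere (0 : E3) 1, r1 θ ∂sph) = _ := s1
  rw [s0, u1, u2, u3, u4, u5, u6, s7]
  push_cast
  ring

theorem Wf_bound (C : ℝ) (hC : ∀ x : E3, ‖x‖ ≤ 1 → |Wf 0 x| ≤ C) (τ : ℝ) (hτ : |τ| ≤ 1 / 10)
    (x : E3) (hx : ‖x‖ ≤ 1) : |Wf τ x| ≤ C + 1 := by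
  rw [Wf_eq]
  have h1 := hC x hx
  have h2 := coord_le x 2
  have h3 : |τ * x 2| ≤ 1 := by
    rw [abs_mul]
    have := mul_le_mul hτ (h2.trans hx) (abs_nonneg _) (by norm_num)
    linarith
  have := abs_add_le (Wf 0 x) (τ * x 2)
  linarith

/-- vertical moment -/
def Zf (ε τ : ℝ) : ℝ := ∫ θ : sphere (0 : E3) 1, (hf ε τ θ) ^ (4 / 3 : ℝ) * (θ : E3) 2 ∂sph

theorem Zf_def' (ε : ℝ) : Zf ε = fun τ => ∫ θ : sphere (0 : E3) 1,
    (hf ε τ θ) ^ (4 / 3 : ℝ) * (θ : E3) 2 ∂sph := rfl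

theorem Zf_cont (ε : ℝ) : Continuous (Zf ε) := by
  have h : Continuous (fun p : ℝ × sphere (0 : E3) 1 => hf ε p.1 (p.2 : E3)) := by
    have e : (fun p : ℝ × sphere (0 : E3) 1 => hf ε p.1 (p.2 : E3)) =
        fun p => 1 + ε * (Wf 0 (p.2 : E3) + p.1 * (p.2 : E3) 2) := by
      ext p; unfold hf; rw [Wf_eq]
    rw [e]
    have := Wf_cont 0
    fun_prop
  have h2 : Continuous (Function.uncurry (fun (τ : ℝ) (θ : sphere (0 : E3) 1) =>
      (hf ε τ θ) ^ (4 / 3 : ℝ) * (θ : E3) 2)) := by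
    apply Continuous.mul
    · exact h.rpow_const (fun _ => Or.inr (by norm_num))
    · fun_prop
  have h3 := continuous_parametric_integral_of_continuous (μ := sph) h2 (s := univ) isCompact_univ
  rw [Zf_def' ε]
  simpa using h3

theorem Zf_est (C ε τ : ℝ) (hCpos : 0 < C) (hC : ∀ x : E3, ‖x‖ ≤ 1 → |Wf 0 x| ≤ C) (hτ : |τ| ≤ 1 / 10)
    (hε : 0 < ε) (hε1 : ε * (C + 1) ≤ 1 / 2) :
    |Zf ε τ - 4 / 3 * ε * (τ * (4 * π / 3))| ≤ ε ^ 2 * (C + 1) ^ 2 * (4 * π) := by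
  have hW := Wf_cont τ
  have hh := hf_cont ε τ
  have hcr : Continuous (fun x : E3 => (hf ε τ x) ^ (4 / 3 : ℝ)) :=
    hh.rpow_const (fun _ => Or.inr (by norm_num))
  let R : E3 → ℝ := fun x => ((hf ε τ x) ^ (4 / 3 : ℝ) - 1 - 4 / 3 * (hf ε τ x - 1)) * x 2
  have hR : Continuous R := by fun_prop
  have e : Zf ε τ - 4 / 3 * ε * (τ * (4 * π / 3)) = ∫ θ : sphere (0 : E3) 1, R θ ∂sph := by
    have e1 : Zf ε τ = (∫ θ : sphere (0 : E3) 1, (R θ + (((θ : E3) 2) +
        (4 / 3 * ε) * (Wf τ θ * (θ : E3) 2))) ∂sph) := by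
      unfold Zf
      congr 1
      ext θ
      simp only [R, hf]
      ring
    rw [e1, integral_add (sphere_integrable R hR)
      (sphere_integrable (fun x => x 2 + (4 / 3 * ε) * (Wf τ x * x 2)) (by fun_prop)),
      integral_add (sphere_integrable (fun x => x 2) (by fun_prop))
      (sphere_integrable (fun x => (4 / 3 * ε) * (Wf τ x * x 2)) (by fun_prop)),
      integral_const_mul, sph_first, sph_W]
    ring
  rw [e, ← sph_univ, ← Real.norm_eq_abs]
  apply norm_integral_le_of_norm_le_const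
  refine Filter.Eventually.of_forall fun θ => ?_
  have hθ : ‖(θ : E3)‖ = 1 := by simpa using θ.2
  have hWb := Wf_bound C hC τ hτ (θ : E3) hθ.le
  have hWb' := abs_le.mp hWb
  have hhpos : 0 < hf ε τ (θ : E3) := by
    unfold hf
    have : |ε * Wf τ (θ : E3)| ≤ 1 / 2 := by
      rw [abs_mul, abs_of_pos hε]
      exact (mul_le_mul_of_nonneg_left hWb hε.le).trans hε1
    linarith [(abs_le.mp this).1]
  have h1 := pow43 _ hhpos
  have h2 := coord_le (θ : E3) 2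
  rw [hθ] at h2
  simp only [R]
  rw [Real.norm_eq_abs, abs_mul]
  calc |hf ε τ (θ : E3) ^ (4 / 3 : ℝ) - 1 - 4 / 3 * (hf ε τ (θ : E3) - 1)| * |(θ : E3) 2|
      ≤ (hf ε τ (θ : E3) - 1) ^ 2 * 1 := by
        apply mul_le_mul h1 h2 (abs_nonneg _) (sq_nonneg _)
    _ = ε ^ 2 * |Wf τ (θ : E3)| ^ 2 := by unfold hf; rw [sq_abs]; ring
    _ ≤ ε ^ 2 * (C + 1) ^ 2 := by gcongr

theorem exists_tau (C ε : ℝ) (hCpos : 0 < C) (hC : ∀ x : E3, ‖x‖ ≤ 1 → |Wf 0 x| ≤ C)
    (hε : 0 < ε) (hε1 : ε * (C + 1) ≤ 1 / 2) (hε2 : ε * (C + 1) ^ 2 ≤ 1 / 50) :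
    ∃ τ, |τ| ≤ 1 / 10 ∧ Zf ε τ = 0 := by
  have hcont := Zf_cont ε
  have a := Zf_est C ε (-(1 / 10)) hCpos hC (by rw [abs_neg]; norm_num) hε hε1
  have b := Zf_est C ε (1 / 10) hCpos hC (by norm_num) hε hε1
  have hb : ε ^ 2 * (C + 1) ^ 2 * (4 * π) ≤ ε * (1 / 50) * (4 * π) := by
    have : ε ^ 2 * (C + 1) ^ 2 = ε * (ε * (C + 1) ^ 2) := by ring
    rw [this]
    have := pi_pos
    gcongr
  have hp : 0 < ε * π := mul_pos hε pi_pos
  have a' := abs_le.mp a
  have b' := abs_le.mp b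
  have h1 : Zf ε (-(1 / 10)) ≤ 0 := by nlinarith [a'.2]
  have h2 : 0 ≤ Zf ε (1 / 10) := by nlinarith [b'.1]
  have := intermediate_value_Icc (by norm_num : (-(1 / 10) : ℝ) ≤ 1 / 10) hcont.continuousOn
  obtain ⟨τ, hτ, hz⟩ := this ⟨h1, h2⟩
  exact ⟨τ, abs_le.mpr ⟨hτ.1, hτ.2⟩, hz⟩

theorem Wf_rot (τ x y z : ℝ) : Wf τ (!₂[-x / 2 - √3 / 2 * y, √3 / 2 * x - y / 2, z]) =
    Wf τ (!₂[x, y, z]) := by
  have h3 : √3 ^ 2 = 3 := Real.sq_sqrt (by norm_num)
  have e3 : (-x / 2 - √3 / 2 * y) ^ 3 - 3 * (-x / 2 - √3 / 2 * y) * (√3 / 2 * x - y / 2) ^ 2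
      = x ^ 3 - 3 * x * y ^ 2 := by
    have h33 : √3 ^ 3 = 3 * √3 := by rw [pow_succ, h3]
    ring_nf
    rw [h33, h3]
    ring
  have f3 : 3 * (-x / 2 - √3 / 2 * y) ^ 2 * (√3 / 2 * x - y / 2) - (√3 / 2 * x - y / 2) ^ 3
      = 3 * x ^ 2 * y - y ^ 3 := by
    have h33 : √3 ^ 3 = 3 * √3 := by rw [pow_succ, h3]
    ring_nf
    rw [h33, h3]
    ring
  have id6 : ∀ a b : ℝ, a ^ 6 - 15 * a ^ 4 * b ^ 2 + 15 * a ^ 2 * b ^ 4 - b ^ 6 =
      (a ^ 3 - 3 * a * b ^ 2) ^ 2 - (3 * a ^ 2 * b - b ^ 3) ^ 2 := by intro a b; ring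
  unfold Wf wtau wpol
  simp only [PiLp.toLp_apply, Matrix.cons_val_zero, Matrix.cons_val_one, Matrix.cons_val]
  rw [id6, id6, e3, f3]

theorem inner_vec (x y z x' y' z' : ℝ) : ⟪vec x y z, vec x' y' z'⟫ = x * x' + y * y' + z * z' := by
  unfold vec
  rw [PiLp.inner_apply, Fin.sum_univ_three]
  simp
  ring

theorem norm_vec (x y z : ℝ) (h : x ^ 2 + y ^ 2 + z ^ 2 = 1) : ‖vec x y z‖ = 1 := by
  have h1 : ‖vec x y z‖ ^ 2 = 1 := by
    rw [← real_inner_self_eq_norm_sq, inner_vec, ← h]; ring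
  have h2 := norm_nonneg (vec x y z)
  nlinarith

theorem section_formula (ε τ κ σ z s : ℝ) (hpos : ∀ x : E3, ‖x‖ = 1 → 0 < hf ε τ x)
    (h1 : κ ^ 2 + σ ^ 2 = 1) (h2 : z ^ 2 + s ^ 2 = 1) :
    (∫ c : ℂ in {c : ℂ | c.re • vec (-σ) κ 0 + c.im • vec (z * κ) (z * σ) (-s) ∈ starSet (hf ε τ)}, c.re)
      = ε * (∫ t in (-π)..π, wtau τ (-σ * cos t + z * κ * sin t) (κ * cos t + z * σ * sin t)
      (-s * sin t) * cos t) / 3 ∧
    (∫ c : ℂ in {c : ℂ | c.re • vec (-σ) κ 0 + c.im • vec (z * κ) (z * σ) (-s) ∈ starSet (hf ε τ)}, c.im)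
      = ε * (∫ t in (-π)..π, wtau τ (-σ * cos t + z * κ * sin t) (κ * cos t + z * σ * sin t)
      (-s * sin t) * sin t) / 3 := by
  have ii : ∀ f : ℝ → ℝ, Continuous f → IntervalIntegrable f volume (-π) π :=
    fun f hf => hf.intervalIntegrable _ _
  have ha : ‖vec (-σ) κ 0‖ = 1 := norm_vec _ _ _ (by linear_combination h1)
  have hb : ‖vec (z * κ) (z * σ) (-s)‖ = 1 :=
    norm_vec _ _ _ (by linear_combination z ^ 2 * h1 + h2)
  have hab : ⟪vec (-σ) κ 0, vec (z * κ) (z * σ) (-s)⟫ = 0 := by rw [inner_vec]; ring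
  obtain ⟨m1, m2⟩ := section_moment (hf ε τ) (hf_cont ε τ) hpos _ _ ha hb hab
  rw [m1, m2]
  have hw : Continuous (fun t : ℝ => wtau τ (-σ * cos t + z * κ * sin t) (κ * cos t + z * σ * sin t) (-s * sin t)) := by
    unfold wtau
    have := wpol_cont.comp (f := fun t : ℝ => (-σ * cos t + z * κ * sin t, κ * cos t + z * σ * sin t, -s * sin t)) (by fun_prop)
    exact this.add (by fun_prop)
  have e : ∀ t : ℝ, hf ε τ (cos t • vec (-σ) κ 0 + sin t • vec (z * κ) (z * σ) (-s)) =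
      1 + ε * wtau τ (-σ * cos t + z * κ * sin t) (κ * cos t + z * σ * sin t) (-s * sin t) := by
    intro t
    unfold hf Wf
    congr 3
    · simp [vec]; ring
    · simp [vec]; ring
    · simp [vec]; ring
  have e1 : ∀ t : ℝ, hf ε τ (cos t • vec (-σ) κ 0 + sin t • vec (z * κ) (z * σ) (-s)) * cos t =
      cos t + ε * (wtau τ (-σ * cos t + z * κ * sin t) (κ * cos t + z * σ * sin t) (-s * sin t) * cos t) := by
    intro t; rw [e]; ring
  have e2 : ∀ t : ℝ, hf ε τ (cos t • vec (-σ) κ 0 + sin t • vec (z * κ) (z * σ) (-s)) * sin t =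
      sin t + ε * (wtau τ (-σ * cos t + z * κ * sin t) (κ * cos t + z * σ * sin t) (-s * sin t) * sin t) := by
    intro t; rw [e]; ring
  simp_rw [e1, e2]
  rw [intervalIntegral.integral_add (ii _ (by fun_prop)) (ii _ (by fun_prop)),
    intervalIntegral.integral_add (ii _ (by fun_prop)) (ii _ (by fun_prop)),
    intervalIntegral.integral_const_mul, intervalIntegral.integral_const_mul, integral_cos, integral_sin]
  simp

/-- the main statement in the normalised position -/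
theorem main : ∃ K : Set E3, IsCompact K ∧ Convex ℝ K ∧ (0 : E3) ∈ interior K ∧
    (∫ x in K, x) = 0 ∧
    ∃! H : AffineSubspace ℝ E3, finrank ℝ H.direction = 2 ∧ (0 : E3) ∈ H ∧
      (⨍ x in K ∩ (H : Set E3), x ∂(μHE[2] : Measure E3)) = 0 := by
  obtain ⟨C, g, hCpos, hCW, hCg, hCT⟩ := taylor_bound (Wf 0) (Wf_contDiff 0)
  obtain ⟨ε, hε, hε1, hε2⟩ : ∃ ε : ℝ, 0 < ε ∧ ε * (C + 1) ≤ 1 / 2 ∧ ε * (C + 1) ^ 2 ≤ 1 / 50 := by
    refine ⟨1 / (50 * (C + 1) ^ 2), by positivity, ?_, ?_⟩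
    · have h : 1 / (50 * (C + 1) ^ 2) * (C + 1) = 1 / (50 * (C + 1)) := by field_simp
      rw [h, div_le_div_iff₀ (by positivity) (by norm_num)]
      linarith
    · have h : 1 / (50 * (C + 1) ^ 2) * (C + 1) ^ 2 = 1 / 50 := by field_simp
      rw [h]
  obtain ⟨τ, hτ, hZ⟩ := exists_tau C ε hCpos hCW hε hε1 hε2
  have hWb : ∀ x : E3, ‖x‖ ≤ 1 → |ε * Wf τ x| ≤ 1 / 2 := by
    intro x hx
    rw [abs_mul, abs_of_pos hε]
    exact (mul_le_mul_of_nonneg_left (Wf_bound C hCW τ hτ x hx) hε.le).trans hε1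
  have hlow : ∀ x : E3, ‖x‖ = 1 → 1 / 2 ≤ hf ε τ x := by
    intro x hx
    have := abs_le.mp (hWb x hx.le)
    unfold hf; linarith [this.1]
  have hup : ∀ x : E3, ‖x‖ = 1 → hf ε τ x ≤ 2 := by
    intro x hx
    have := abs_le.mp (hWb x hx.le)
    unfold hf; linarith [this.2]
  have h0 : 0 ≤ hf ε τ 0 := by
    have := abs_le.mp (hWb 0 (by simp))
    unfold hf; linarith [this.1]
  have hpos : ∀ x : E3, ‖x‖ = 1 → 0 < hf ε τ x := fun x hx => by linarith [hlow x hx]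
  -- convexity
  obtain ⟨hconv, hclosed⟩ := starSet_convex (hf ε τ) (fun x => ε • (g x + τ • vec 0 0 1))
    (ε * (C + 1)) h0 hlow (by
      intro x hx
      rw [norm_smul, Real.norm_of_nonneg hε.le]
      apply mul_le_mul_of_nonneg_left _ hε.le
      refine (norm_add_le _ _).trans ?_
      rw [norm_smul, norm_vec 0 0 1 (by norm_num), Real.norm_eq_abs]
      linarith [hCg x hx.le]) (by
      intro x y hx hy
      have h := hCT x y hx.le hy.le
      have hv : ⟪vec 0 0 1, y - x⟫ = (y - x) 2 := by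
        unfold vec
        rw [PiLp.inner_apply, Fin.sum_univ_three]
        simp
      have e : hf ε τ y - hf ε τ x - ⟪ε • (g x + τ • vec 0 0 1), y - x⟫ =
          ε * (Wf 0 y - Wf 0 x - ⟪g x, y - x⟫) := by
        unfold hf
        rw [Wf_eq τ y, Wf_eq τ x, real_inner_smul_left, inner_add_left, real_inner_smul_left, hv,
          PiLp.sub_apply]
        ring
      rw [e, abs_mul, abs_of_pos hε, mul_assoc]
      apply mul_le_mul_of_nonneg_left _ hε.le
      refine h.trans ?_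
      apply mul_le_mul_of_nonneg_right (by linarith) (sq_nonneg _)) hε1
  set K := starSet (hf ε τ) with hK
  have hbdd := starSet_bdd (hf ε τ) hup
  have hball := starSet_ball (hf ε τ) h0 hlow
  have hcomp : IsCompact K := (isCompact_closedBall (0 : E3) 2).of_isClosed_subset hclosed hbdd
  have hint : (0 : E3) ∈ interior K := by
    rw [mem_interior]
    exact ⟨ball 0 (1 / 2), hball, isOpen_ball, by simp⟩
  have hbd : Bornology.IsBounded K := hcomp.isBounded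
  refine ⟨K, hcomp, hconv, hint, ?_, ?_⟩
  · -- centroid
    have hI : IntegrableOn (fun x : E3 => x) K volume :=
      continuous_id.continuousOn.integrableOn_compact hcomp
    have comp : ∀ i : Fin 3, (∫ x in K, x) i = ∫ x in K, x i := by
      intro i
      have := (EuclideanSpace.proj i : E3 →L[ℝ] ℝ).integral_comp_comm hI
      simpa using this.symm
    have hsym : ∀ x y z : ℝ, (fun v : E3 => (hf ε τ v) ^ (4 / 3 : ℝ))
        (!₂[-x / 2 - √3 / 2 * y, √3 / 2 * x - y / 2, z]) =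
        (fun v : E3 => (hf ε τ v) ^ (4 / 3 : ℝ)) (!₂[x, y, z]) := by
      intro x y z
      simp only
      unfold hf
      rw [Wf_rot]
    have hor := sphere_horizontal (fun v : E3 => (hf ε τ v) ^ (4 / 3 : ℝ))
      ((hf_cont ε τ).rpow_const (fun _ => Or.inr (by norm_num))) hsym
    apply ext3
    · rw [comp, volume_moment _ (hf_cont ε τ) hpos 0]
      simp only at hor
      rw [hor.1]; simp
    · rw [comp, volume_moment _ (hf_cont ε τ) hpos 1]
      simp only at hor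
      rw [hor.2]; simp
    · rw [comp, volume_moment _ (hf_cont ε τ) hpos 2]
      have : (∫ θ : sphere (0 : E3) 1, (hf ε τ θ) ^ (4 / 3 : ℝ) * (θ : E3) 2 ∂(volume : Measure E3).toSphere) = 0 := hZ
      rw [this]; simp
  · -- the unique plane
    have hcrit : ∀ (κ σ z s : ℝ) (h1 : κ ^ 2 + σ ^ 2 = 1) (h2 : z ^ 2 + s ^ 2 = 1)
        (H : AffineSubspace ℝ E3) (hH : (H : Set E3) = Set.range
        (fun c : ℂ => c.re • vec (-σ) κ 0 + c.im • vec (z * κ) (z * σ) (-s))),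
        (⨍ x in K ∩ (H : Set E3), x ∂(μHE[2] : Measure E3)) = 0 ↔
        ((∫ t in (-π)..π, wtau τ (-σ * cos t + z * κ * sin t) (κ * cos t + z * σ * sin t)
          (-s * sin t) * cos t) = 0 ∧
        (∫ t in (-π)..π, wtau τ (-σ * cos t + z * κ * sin t) (κ * cos t + z * σ * sin t)
          (-s * sin t) * sin t) = 0) := by
      intro κ σ z s h1 h2 H hH
      have ha : ‖vec (-σ) κ 0‖ = 1 := norm_vec _ _ _ (by linear_combination h1)
      have hb : ‖vec (z * κ) (z * σ) (-s)‖ = 1 :=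
        norm_vec _ _ _ (by linear_combination z ^ 2 * h1 + h2)
      have hab : ⟪vec (-σ) κ 0, vec (z * κ) (z * σ) (-s)⟫ = 0 := by rw [inner_vec]; ring
      rw [plane_section K hclosed.measurableSet hbd hint _ _ ha hb hab H hH]
      obtain ⟨f1, f2⟩ := section_formula ε τ κ σ z s hpos h1 h2
      rw [f1, f2]
      constructor
      · rintro ⟨a, b⟩
        constructor
        · have : ε * (∫ t in (-π)..π, wtau τ (-σ * cos t + z * κ * sin t) (κ * cos t + z * σ * sin t)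
            (-s * sin t) * cos t) = 0 := by linarith
          rcases mul_eq_zero.mp this with h | h
          · exact absurd h hε.ne'
          · exact h
        · have : ε * (∫ t in (-π)..π, wtau τ (-σ * cos t + z * κ * sin t) (κ * cos t + z * σ * sin t)
            (-s * sin t) * sin t) = 0 := by linarith
          rcases mul_eq_zero.mp this with h | h
          · exact absurd h hε.ne'
          · exact h
      · rintro ⟨a, b⟩
        rw [a, b]; simp
    obtain ⟨H0, hd0, hz0, hH0⟩ := plane_exists 1 0 1 0 (by norm_num) (by norm_num)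
    have hset : ∀ (κ σ z : ℝ), κ ^ 2 + σ ^ 2 = 1 → z ^ 2 = 1 →
        Set.range (fun c : ℂ => c.re • vec (-σ) κ 0 + c.im • vec (z * κ) (z * σ) (-0)) =
        {x : E3 | x 2 = 0} := by
      intro κ σ z h1 h2
      ext x
      constructor
      · rintro ⟨c, rfl⟩
        simp [vec]
      · intro hx
        have hx' : x 2 = 0 := hx
        refine ⟨⟨-σ * x 0 + κ * x 1, z * (κ * x 0 + σ * x 1)⟩, ?_⟩
        apply ext3
        · simp [vec]
          linear_combination (x 0) * h1 + (κ * (κ * x 0 + σ * x 1)) * h2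
        · simp [vec]
          linear_combination (x 1) * h1 + (σ * (κ * x 0 + σ * x 1)) * h2
        · simp [vec, hx']
    refine ⟨H0, ⟨hd0, hz0, ?_⟩, ?_⟩
    · rw [hcrit 1 0 1 0 (by norm_num) (by norm_num) H0 hH0]
      have c1 := circ_cos 1 0 1 0
      have c2 := circ_sin 1 0 1 0
      have g1 := G_add 1 0 (by norm_num)
      constructor
      · have : ∀ t : ℝ, wtau τ (-0 * cos t + 1 * 1 * sin t) (1 * cos t + 1 * 0 * sin t)
          (-0 * sin t) * cos t = wpol (-0 * cos t + 1 * 1 * sin t) (1 * cos t + 1 * 0 * sin t)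
          (-0 * sin t) * cos t := by intro t; unfold wtau; ring
        simp_rw [this]
        rw [c1]; ring
      · have : ∀ t : ℝ, wtau τ (-0 * cos t + 1 * 1 * sin t) (1 * cos t + 1 * 0 * sin t)
          (-0 * sin t) * sin t = wpol (-0 * cos t + 1 * 1 * sin t) (1 * cos t + 1 * 0 * sin t)
          (-0 * sin t) * sin t := by intro t; unfold wtau; ring
        simp_rw [this]
        rw [c2]
        linear_combination (-(2 * π)) * g1
    · rintro H ⟨hd, hz, hav⟩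
      obtain ⟨κ, σ, z, s, h1, h2, hs, hH⟩ := plane_param H hd hz
      rw [hcrit κ σ z s h1 h2 H hH] at hav
      have hs0 : s = 0 := by
        by_contra hne
        exact moment_ne κ σ z s τ h1 h2 (lt_of_le_of_ne hs (Ne.symm hne)) hτ hav.1 hav.2
      subst hs0
      have hz2 : z ^ 2 = 1 := by linarith
      apply SetLike.coe_injective
      rw [hH, hset κ σ z h1 hz2, hH0, hset 1 0 1 (by norm_num) (by norm_num)]

end

end Loewner
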